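import Mathlib

/-!
# Many fractions with a common denominator and bounded partial quotients
-/

set_option autoImplicit false

namespace Q271.UL

/-- properties of the fraction `z / N` (partial quotients at most ten) -/
structure G (N z : ℕ) : Prop where
  one_le : 1 ≤ z
  lt : z < N
  le : N ≤ 11 * z
  cop : Nat.Coprime N z
  neg : ∀ x p : ℤ, 0 < x → 0 < p → x * z < p * N → (N : ℤ) ≤ 12 * (x * (p * N - x * z))
  pos : ∀ x p : ℤ, 0 < x → 0 < p → p * N < x * z → (z : ℤ) ≤ 12 * (p * (x * z - p * N))

lemma G_base : G 2 1 := by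
  refine ⟨by norm_num, by norm_num, by norm_num, by norm_num, ?_, ?_⟩
  · intro x p hx hp h
    push_cast at h ⊢
    nlinarith
  · intro x p hx hp h
    push_cast at h ⊢
    nlinarith

lemma G_step (N z a : ℕ) (h : G N z) (ha1 : 1 ≤ a) (ha : a ≤ 10) : G (a * N + z) N := by
  obtain ⟨h1, h2, h3, h4, h5, h6⟩ := h
  have hN : (0:ℤ) < N := by omega
  have hz : (0:ℤ) < z := by omega
  have ha1' : (1:ℤ) ≤ a := by exact_mod_cast ha1
  have ha' : (a:ℤ) ≤ 10 := by exact_mod_cast ha
  have hzN : (z:ℤ) < N := by exact_mod_cast h2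
  have hN11 : (N:ℤ) ≤ 11 * z := by exact_mod_cast h3
  refine ⟨by omega, by nlinarith, by nlinarith, ?_, ?_, ?_⟩
  · rw [Nat.coprime_comm] at h4
    simpa using h4
  · intro x p hx hp h
    push_cast at h ⊢
    -- `p' = x - a p`, `p (a N + z) - x N = p z - p' N`
    set p' : ℤ := x - a * p with hp'
    have hx' : x = a * p + p' := by rw [hp']; ring
    have e : p * (a * N + z) - x * N = p * z - p' * N := by rw [hp']; ring
    rw [e]
    have hy : 0 < p * z - p' * N := by rw [← e]; linarith
    have hap : 0 < (a:ℤ) * p := by positivity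
    rcases lt_trichotomy p' 0 with hneg | hzero | hpos
    · have h7 : (N:ℤ) ≤ p * z - p' * N := by nlinarith
      have h8 : (N:ℤ) ≤ x * (p * z - p' * N) := by nlinarith
      nlinarith
    · rw [hzero] at hy hx' ⊢
      rw [zero_mul, sub_zero] at hy ⊢
      rw [add_zero] at hx'
      rw [hx']
      have h7 : (a:ℤ) * z ≤ a * p * (p * z) := by
        have : (1:ℤ) ≤ p * p := by nlinarith
        nlinarith [mul_pos (by linarith : (0:ℤ) < a) hz]
      nlinarith
    · have h7 := h6 p p' hp hpos (by linarith)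
      -- `12 p y ≥ N`
      set y : ℤ := p * z - p' * N with hydef
      have h8 : (N:ℤ) ≤ 12 * (p * y) := by
        have h9 : p' * N ≤ p * z := by linarith
        have h10 : (N:ℤ) * z ≤ 12 * (p * y) * z := by
          calc (N:ℤ) * z ≤ N * (12 * (p' * y)) := by nlinarith
            _ = 12 * (p' * N) * y := by ring
            _ ≤ 12 * (p * z) * y := by nlinarith
            _ = 12 * (p * y) * z := by ring
        exact le_of_mul_le_mul_right h10 hz
      rw [hx']
      nlinarith
  · intro x p hx hp h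
    push_cast at h ⊢
    set p' : ℤ := x - a * p with hp'
    have e : x * N - p * (a * N + z) = p' * N - p * z := by rw [hp']; ring
    rw [e]
    have hy : 0 < p' * N - p * z := by rw [← e]; linarith
    have hpos : 0 < p' := by
      by_contra hcon
      push Not at hcon
      nlinarith
    exact h5 p p' hp hpos (by linarith)

/-- **Goodness.** -/
lemma G.good {N z : ℕ} (h : G N z) (x p : ℤ) (hx : 0 < x) (hxN : x < N) :
    (N : ℤ) ≤ 12 * (x * |x * z - p * N|) := by
  have hN : (0:ℤ) < N := by linarith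
  have hz : (1:ℤ) ≤ z := by exact_mod_cast h.one_le
  have hN11 : (N:ℤ) ≤ 11 * z := by exact_mod_cast h.le
  have hzN : (z:ℤ) < N := by exact_mod_cast h.lt
  rcases lt_trichotomy (x * z - p * N) 0 with hneg | hzero | hpos
  · rw [abs_of_neg hneg]
    have hp : 0 < p := by
      by_contra hcon
      push Not at hcon
      nlinarith
    have := h.neg x p hx hp (by linarith)
    linarith
  · exfalso
    have h1 : (N : ℤ) ∣ x * z := ⟨p, by linarith⟩
    have h2 : (N : ℤ) ∣ x := by
      have hc : IsCoprime (N : ℤ) (z : ℤ) := Nat.isCoprime_iff_coprime.2 h.cop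
      exact hc.dvd_of_dvd_mul_right h1
    have := Int.le_of_dvd hx h2
    linarith
  · rw [abs_of_pos hpos]
    rcases lt_trichotomy p 0 with hp | hp | hp
    · nlinarith
    · subst hp
      nlinarith
    · -- use the estimate with `p`
      have h1 := h.pos x p hx hp (by linarith)
      set y := x * z - p * N with hy
      have h2 : p * N ≤ x * z := by linarith
      have h3 : (N:ℤ) * z ≤ 12 * (x * y) * z := by
        calc (N:ℤ) * z ≤ N * (12 * (p * y)) := by nlinarith
          _ = 12 * (p * N) * y := by ring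
          _ ≤ 12 * (x * z) * y := by nlinarith
          _ = 12 * (x * y) * z := by ring
      exact le_of_mul_le_mul_right h3 (by linarith)

/-- the pairs `(N, z)` with `N ≤ 2 n` obtained by the recursion -/
def P (n : ℕ) : Finset (ℕ × ℕ) :=
  if h : n = 0 then ∅ else
    insert (2, 1) ((Finset.univ : Finset (Fin 10)).biUnion fun i =>
      (P (n / (i.1 + 2))).image fun u => ((i.1 + 1) * u.1 + u.2, u.1))
termination_by n
decreasing_by exact Nat.div_lt_self (Nat.pos_of_ne_zero h) (by omega)

lemma P_zero : P 0 = ∅ := by rw [P]; simp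

lemma P_pos (n : ℕ) (hn : n ≠ 0) : P n =
    insert (2, 1) ((Finset.univ : Finset (Fin 10)).biUnion fun i =>
      (P (n / (i.1 + 2))).image fun u => ((i.1 + 1) * u.1 + u.2, u.1)) := by
  rw [P, dif_neg hn]

lemma P_spec (n : ℕ) : ∀ u ∈ P n, G u.1 u.2 ∧ u.1 ≤ 2 * n := by
  induction n using Nat.strong_induction_on with
  | _ n ih =>
    intro u hu
    by_cases hn : n = 0
    · subst hn
      rw [P_zero] at hu
      exact absurd hu (Finset.notMem_empty u)
    · rw [P_pos n hn, Finset.mem_insert, Finset.mem_biUnion] at hu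
      rcases hu with rfl | ⟨i, -, hi⟩
      · exact ⟨G_base, by simp; omega⟩
      · rw [Finset.mem_image] at hi
        obtain ⟨v, hv, rfl⟩ := hi
        obtain ⟨h1, h2⟩ := ih (n / (i.1 + 2)) (Nat.div_lt_self (Nat.pos_of_ne_zero hn) (by omega)) v hv
        refine ⟨G_step v.1 v.2 (i.1 + 1) h1 (by omega) (by omega), ?_⟩
        show (i.1 + 1) * v.1 + v.2 ≤ 2 * n
        have h3 := h1.lt
        have h4 : (i.1 + 2) * (n / (i.1 + 2)) ≤ n := Nat.mul_div_le n (i.1 + 2)
        calc (i.1 + 1) * v.1 + v.2 ≤ (i.1 + 2) * v.1 := by nlinarith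
          _ ≤ (i.1 + 2) * (2 * (n / (i.1 + 2))) := Nat.mul_le_mul_left _ h2
          _ = 2 * ((i.1 + 2) * (n / (i.1 + 2))) := by ring
          _ ≤ 2 * n := Nat.mul_le_mul_left _ h4

lemma card_P (n : ℕ) (hn : n ≠ 0) : (P n).card = 1 + ∑ i : Fin 10, (P (n / (i.1 + 2))).card := by
  rw [P_pos n hn, Finset.card_insert_of_notMem, Finset.card_biUnion, add_comm]
  · congr 1
    apply Finset.sum_congr rfl
    intro i _
    apply Finset.card_image_of_injOn
    intro u _ v _ h
    simp only [Prod.mk.injEq] at h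
    obtain ⟨h1, h2⟩ := h
    rw [h2] at h1
    exact Prod.ext h2 (by omega)
  · intro i _ j _ hij
    rw [Function.onFun, Finset.disjoint_left]
    intro u hu hv
    rw [Finset.mem_image] at hu hv
    obtain ⟨v, hv1, rfl⟩ := hu
    obtain ⟨w, hw1, hw2⟩ := hv
    simp only [Prod.mk.injEq] at hw2
    obtain ⟨h1, h2⟩ := hw2
    have hvG := (P_spec _ v hv1).1
    have hwG := (P_spec _ w hw1).1
    apply hij
    have h3 := hvG.lt
    have h4 := hwG.lt
    rw [h2] at h1 h4
    -- `(j+1) N + w2 = (i+1) N + v2`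
    apply Fin.ext
    have h5 : 0 < v.1 := by omega
    by_contra hne
    rcases Nat.lt_or_gt_of_ne hne with h6 | h6
    · have : (i.1 + 1 + 1) * v.1 ≤ (j.1 + 1) * v.1 := Nat.mul_le_mul_right _ (by omega)
      nlinarith
    · have : (j.1 + 1 + 1) * v.1 ≤ (i.1 + 1) * v.1 := Nat.mul_le_mul_right _ (by omega)
      nlinarith
  · rw [Finset.mem_biUnion]
    rintro ⟨i, -, hi⟩
    rw [Finset.mem_image] at hi
    obtain ⟨v, hv, hv2⟩ := hi
    simp only [Prod.mk.injEq] at hv2
    have hvG := (P_spec _ v hv).1
    have := hvG.lt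
    have := hvG.one_le
    omega

/-- **The count.** -/
lemma card_P_ge (n : ℕ) : ((n:ℝ) + 1) * Real.sqrt (n + 1) - 1 ≤ 9 * (P n).card := by
  induction n using Nat.strong_induction_on with
  | _ n ih =>
    by_cases hn : n = 0
    · subst hn
      rw [P_zero]
      simp
    · rw [card_P n hn]
      push_cast
      set φ : ℝ := ((n:ℝ) + 1) * Real.sqrt (n + 1) with hφ
      have hφ0 : 0 ≤ φ := by positivity
      -- the recursive bound
      have key : ∀ (b : ℕ) (t : ℝ), 2 ≤ b → 0 < t → (b:ℝ) ≤ t ^ 2 →
          φ * (1 / (b * t)) - 1 ≤ 9 * ((P (n / b)).card : ℝ) := by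
        intro b t hb ht hbt
        refine le_trans ?_ (ih (n / b) (Nat.div_lt_self (Nat.pos_of_ne_zero hn) hb))
        have hb0 : (0:ℝ) < b := by
          have : 0 < b := by omega
          exact_mod_cast this
        have h1 : ((n:ℝ) + 1) / b ≤ ((n / b : ℕ) : ℝ) + 1 := by
          rw [div_le_iff₀ hb0]
          have h2 : n + 1 ≤ (n / b + 1) * b := by
            have := Nat.lt_div_mul_add (a := n) (show 0 < b by omega)
            rw [Nat.add_mul, one_mul]
            omega
          exact_mod_cast h2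
        have h2 : Real.sqrt b ≤ t := by
          rw [Real.sqrt_le_left ht.le]
          exact hbt
        have h3 : φ * (1 / (b * t)) ≤ (((n:ℝ) + 1) / b) * Real.sqrt (((n:ℝ) + 1) / b) := by
          rw [Real.sqrt_div (by positivity), hφ]
          have hsb : 0 < Real.sqrt b := Real.sqrt_pos.2 hb0
          have h4 : 1 / t ≤ 1 / Real.sqrt b := one_div_le_one_div_of_le hsb h2
          calc ((n:ℝ) + 1) * Real.sqrt (n + 1) * (1 / (b * t))
              = (((n:ℝ) + 1) / b * Real.sqrt (n + 1)) * (1 / t) := by field_simp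
            _ ≤ (((n:ℝ) + 1) / b * Real.sqrt (n + 1)) * (1 / Real.sqrt b) := by gcongr
            _ = _ := by field_simp
        have h4 : (((n:ℝ) + 1) / b) * Real.sqrt (((n:ℝ) + 1) / b) ≤
            (((n / b : ℕ) : ℝ) + 1) * Real.sqrt (((n / b : ℕ) : ℝ) + 1) := by
          gcongr
        linarith
      have k2 := key 2 1.4143 (by norm_num) (by norm_num) (by norm_num)
      have k3 := key 3 1.7321 (by norm_num) (by norm_num) (by norm_num)
      have k4 := key 4 2 (by norm_num) (by norm_num) (by norm_num)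
      have k5 := key 5 2.2361 (by norm_num) (by norm_num) (by norm_num)
      have k6 := key 6 2.4495 (by norm_num) (by norm_num) (by norm_num)
      have k7 := key 7 2.6458 (by norm_num) (by norm_num) (by norm_num)
      have k8 := key 8 2.8285 (by norm_num) (by norm_num) (by norm_num)
      have k9 := key 9 3 (by norm_num) (by norm_num) (by norm_num)
      have k10 := key 10 3.1623 (by norm_num) (by norm_num) (by norm_num)
      have k11 := key 11 3.3167 (by norm_num) (by norm_num) (by norm_num)
      rw [Fin.sum_univ_succ, Fin.sum_univ_succ, Fin.sum_univ_succ, Fin.sum_univ_succ,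
        Fin.sum_univ_succ, Fin.sum_univ_succ, Fin.sum_univ_succ, Fin.sum_univ_succ,
        Fin.sum_univ_succ, Fin.sum_univ_succ, Fin.sum_univ_zero]
      simp only [Fin.val_zero, Fin.val_succ, zero_add, Nat.reduceAdd, add_zero]
      push_cast at k2 k3 k4 k5 k6 k7 k8 k9 k10 k11
      have hnum : (1:ℝ) ≤ 1 / (2 * 1.4143) + 1 / (3 * 1.7321) + 1 / (4 * 2) + 1 / (5 * 2.2361) +
        1 / (6 * 2.4495) + 1 / (7 * 2.6458) + 1 / (8 * 2.8285) + 1 / (9 * 3) + 1 / (10 * 3.1623) +
        1 / (11 * 3.3167) := by norm_num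
      have hφn := mul_le_mul_of_nonneg_left hnum hφ0
      simp only [mul_add] at hφn
      linarith

end Q271.UL
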