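import Mathlib

/-!
# A simple sieve
-/

set_option autoImplicit false

namespace Q271.UL

/-- For finitely many primes one residue class modulo each of them can be avoided by a small
number. -/
theorem sieve (S : Finset ℕ) (hS : ∀ p ∈ S, p.Prime) (α β : ℕ → ℤ)
    (hα : ∀ p ∈ S, ¬ (p : ℤ) ∣ α p) :
    ∃ n : ℕ, n < 2 ^ (6 * S.card) ∧ ∀ p ∈ S, ¬ (p : ℤ) ∣ α p * n + β p := by
  classical
  set ω := S.card with hω
  set S1 := S.filter (fun p => p ≤ 2 * ω) with hS1
  set q := ∏ p ∈ S1, p with hq
  have hqpos : 0 < q := Finset.prod_pos fun p hp => (hS p (Finset.mem_filter.1 hp).1).pos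
  have hq4 : q ≤ 4 ^ (2 * ω) := by
    refine le_trans ?_ (primorial_le_four_pow (2 * ω))
    rw [hq, primorial]
    apply Finset.prod_le_prod_of_subset_of_one_le'
    · intro p hp
      rw [Finset.mem_filter] at hp ⊢
      exact ⟨Finset.mem_range.2 (by omega), hS p hp.1⟩
    · intro p hp _
      exact (Finset.mem_filter.1 hp).2.one_le
  -- the residues modulo the small primes
  have hres : ∀ p ∈ S, ∃ c : ℕ, ∀ n : ℕ, n ≡ c [MOD p] → ¬ (p : ℤ) ∣ α p * n + β p := by
    intro p hp
    have hp1 := hS p hp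
    by_cases h0 : (p : ℤ) ∣ β p
    · refine ⟨1, fun n hn hdvd => ?_⟩
      have h1 : (p : ℤ) ∣ α p * n := (Int.dvd_add_left h0).1 hdvd
      have h2 : (n : ℤ) ≡ 1 [ZMOD p] := by
        have := (Int.natCast_modEq_iff (n := p)).2 hn
        simpa using this
      rcases (Nat.prime_iff_prime_int.1 hp1).dvd_or_dvd h1 with h3 | h3
      · exact hα p hp h3
      · have h4 : (p : ℤ) ∣ 1 := by
          have h5 := h2.dvd
          have h6 := dvd_add h5 h3
          simpa using h6
        have h7 := Int.le_of_dvd (by norm_num) h4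
        have := hp1.two_le
        omega
    · refine ⟨0, fun n hn hdvd => h0 ?_⟩
      have h2 : (p : ℤ) ∣ (n : ℤ) := by
        have := (Nat.modEq_zero_iff_dvd).1 hn
        exact_mod_cast this
      exact (Int.dvd_add_right (Dvd.dvd.mul_left h2 (α p))).1 hdvd
  choose! c hc using hres
  have hco : Set.Pairwise (S1 : Set ℕ) (Function.onFun Nat.Coprime (fun p => p)) := by
    intro p hp p' hp' hne
    rw [Finset.mem_coe, hS1, Finset.mem_filter] at hp hp'
    exact (Nat.coprime_primes (hS p hp.1) (hS p' hp'.1)).2 hne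
  obtain ⟨k0, hk0⟩ := Nat.chineseRemainderOfFinset c (fun p => p) S1
    (fun p hp => (hS p (Finset.mem_filter.1 hp).1).ne_zero) hco
  set n0 := k0 % q with hn0
  have hn0q : n0 < q := Nat.mod_lt _ hqpos
  have hn0c : ∀ p ∈ S1, n0 ≡ c p [MOD p] := by
    intro p hp
    have h1 : n0 ≡ k0 [MOD q] := Nat.mod_modEq _ _
    exact (h1.of_dvd (Finset.dvd_prod_of_mem _ hp)).trans (hk0 p hp)
  -- the large primes
  set S2 := S.filter (fun p => ¬ p ≤ 2 * ω) with hS2
  set T := Finset.range (ω + 1) with hT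
  have hbad : ∀ p ∈ S2, ((T.filter fun t => (p : ℤ) ∣ α p * ((n0 + q * t : ℕ) : ℤ) + β p).card) ≤ 1 := by
    intro p hp
    rw [Finset.card_le_one]
    intro t ht t' ht'
    rw [Finset.mem_filter, hT, Finset.mem_range] at ht ht'
    rw [hS2, Finset.mem_filter] at hp
    have hp1 := hS p hp.1
    have hprime := Nat.prime_iff_prime_int.1 hp1
    have h1 : (p : ℤ) ∣ α p * (q * ((t : ℤ) - t')) := by
      have h2 := dvd_sub ht.2 ht'.2
      push_cast at h2
      have e : α p * ((n0 : ℤ) + q * t) + β p - (α p * (n0 + q * t') + β p) =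
          α p * (q * ((t : ℤ) - t')) := by ring
      rwa [e] at h2
    have h3 : (p : ℤ) ∣ (t : ℤ) - t' := by
      rcases hprime.dvd_or_dvd h1 with h4 | h4
      · exact absurd h4 (hα p hp.1)
      · rcases hprime.dvd_or_dvd h4 with h5 | h5
        · exfalso
          have h6 : p ∣ q := by exact_mod_cast h5
          obtain ⟨p', hp', hdvd⟩ := (Prime.dvd_finset_prod_iff (Nat.prime_iff.1 hp1) _).1 h6
          have h7 := Finset.mem_filter.1 hp'
          have h8 : p = p' := (Nat.prime_dvd_prime_iff_eq hp1 (hS p' h7.1)).1 hdvd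
          omega
        · exact h5
    by_contra hne
    have h4 : (t : ℤ) - t' ≠ 0 := by omega
    have h5 := Int.le_of_dvd (abs_pos.2 h4) ((dvd_abs _ _).2 h3)
    have h6 : |(t : ℤ) - t'| ≤ ω := by
      rw [abs_le]; constructor <;> omega
    have h7 := hp.2
    omega
  have hcardS2 : S2.card ≤ ω := Finset.card_filter_le _ _
  obtain ⟨t, htT, ht⟩ : ∃ t ∈ T, ∀ p ∈ S2, ¬ (p : ℤ) ∣ α p * ((n0 + q * t : ℕ) : ℤ) + β p := by
    by_contra hcon
    push Not at hcon
    have h1 : T ⊆ S2.biUnion fun p =>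
        T.filter fun t => (p : ℤ) ∣ α p * ((n0 + q * t : ℕ) : ℤ) + β p := by
      intro t ht
      obtain ⟨p, hp, hdvd⟩ := hcon t ht
      rw [Finset.mem_biUnion]
      exact ⟨p, hp, Finset.mem_filter.2 ⟨ht, hdvd⟩⟩
    have h2 := (Finset.card_le_card h1).trans (Finset.card_biUnion_le.trans
      (Finset.sum_le_sum hbad))
    rw [Finset.sum_const, smul_eq_mul, mul_one, hT, Finset.card_range] at h2
    omega
  refine ⟨n0 + q * t, ?_, ?_⟩
  · rw [hT, Finset.mem_range] at htT
    have h1 : n0 + q * t < q * (ω + 1) := by nlinarith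
    have h2 : ω + 1 ≤ 4 ^ ω := by
      have : ω < 4 ^ ω := Nat.lt_pow_self (by norm_num)
      omega
    calc n0 + q * t < q * (ω + 1) := h1
      _ ≤ 4 ^ (2 * ω) * 4 ^ ω := Nat.mul_le_mul hq4 h2
      _ = 2 ^ (6 * ω) := by
          rw [← pow_add, show (4:ℕ) = 2 ^ 2 by norm_num, ← pow_mul]
          congr 1
          ring
  · intro p hp
    by_cases h : p ≤ 2 * ω
    · have hp1 : p ∈ S1 := Finset.mem_filter.2 ⟨hp, h⟩
      apply hc p hp
      have h1 : n0 + q * t ≡ n0 [MOD p] := by
        have h2 : q * t ≡ 0 [MOD p] :=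
          (Nat.modEq_zero_iff_dvd).2 (Dvd.dvd.mul_right (Finset.dvd_prod_of_mem _ hp1) t)
        have h3 := (Nat.ModEq.refl n0 : n0 ≡ n0 [MOD p]).add h2
        simpa using h3
      exact h1.trans (hn0c p hp1)
    · exact ht p (Finset.mem_filter.2 ⟨hp, h⟩)

/-- numbers have few prime factors -/
theorem omega_bound (K N : ℕ) (hN : N ≠ 0) :
    2 ^ (K * N.primeFactors.card) ≤ 2 ^ (K * 2 ^ K) * N := by
  classical
  set S1 := N.primeFactors.filter (fun p => p < 2 ^ K) with hS1
  set S2 := N.primeFactors.filter (fun p => ¬ p < 2 ^ K) with hS2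
  have hcard : N.primeFactors.card = S1.card + S2.card :=
    (Finset.card_filter_add_card_filter_not _).symm
  have h1 : S1.card ≤ 2 ^ K := by
    calc S1.card ≤ (Finset.range (2 ^ K)).card := by
          apply Finset.card_le_card
          intro p hp
          exact Finset.mem_range.2 (Finset.mem_filter.1 hp).2
      _ = 2 ^ K := Finset.card_range _
  have h2 : (2 ^ K) ^ S2.card ≤ N := by
    calc (2 ^ K) ^ S2.card = ∏ _p ∈ S2, 2 ^ K := by rw [Finset.prod_const]
      _ ≤ ∏ p ∈ S2, p := by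
          apply Finset.prod_le_prod'
          intro p hp
          exact not_lt.1 (Finset.mem_filter.1 hp).2
      _ ≤ ∏ p ∈ N.primeFactors, p := by
          apply Finset.prod_le_prod_of_subset_of_one_le'
          · exact Finset.filter_subset _ _
          · intro p hp _
            exact (Nat.prime_of_mem_primeFactors hp).one_le
      _ ≤ N := Nat.le_of_dvd (Nat.pos_of_ne_zero hN) (Nat.prod_primeFactors_dvd N)
  rw [hcard, mul_add, pow_add]
  apply Nat.mul_le_mul
  · exact Nat.pow_le_pow_right (by norm_num) (Nat.mul_le_mul_left _ h1)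
  · rw [pow_mul]
    exact h2

end Q271.UL
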