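import Mathlib
import Pool.Agent.Q271.UL.CF
import Pool.Agent.Q271.UL.Sieve

/-!
# Lattice points with a coprime first coordinate in small boxes
-/

set_option autoImplicit false

namespace Q271.UL

/-- a short basis of the lattice `{(a, b) : N ∣ b - a z}` -/
lemma short_basis (N z : ℕ) (h : G N z) : ∃ x y x' y' m m' : ℤ,
    0 < x ∧ x ≤ N.sqrt ∧ |y| ≤ N.sqrt ∧ 0 ≤ x' ∧ x' ≤ N.sqrt ∧ |y'| ≤ 13 * N.sqrt ∧
    x * m' - m * x' = 1 ∧ y = x * z - m * N ∧ y' = x' * z - m' * N := by
  have hN2 : 2 ≤ N := by have := h.one_le; have := h.lt; omega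
  have hs : 0 < N.sqrt := Nat.sqrt_pos.2 (by omega)
  have hsN : N.sqrt < N := Nat.sqrt_lt_self (by omega)
  have hlt : N < (N.sqrt + 1) * (N.sqrt + 1) := Nat.lt_succ_sqrt N
  obtain ⟨m0, x0, hx0, hx0s, happ⟩ := Real.exists_int_int_abs_mul_sub_le ((z:ℝ) / N) hs
  have hNr : (0:ℝ) < N := by exact_mod_cast (by omega : 0 < N)
  set s : ℤ := (N.sqrt : ℤ) with hsdef
  have hs0 : (0:ℤ) < s := by rw [hsdef]; exact_mod_cast hs
  -- the integer form of the approximation
  have hy0 : |x0 * z - m0 * N| ≤ s := by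
    have h1 : |(x0:ℝ) * z - m0 * N| ≤ N / (N.sqrt + 1) := by
      have e : (x0:ℝ) * z - m0 * N = ((x0:ℝ) * ((z:ℝ) / N) - m0) * N := by
        field_simp
      rw [e, abs_mul, abs_of_pos hNr]
      calc |(x0:ℝ) * ((z:ℝ) / N) - m0| * N ≤ 1 / ((N.sqrt : ℝ) + 1) * N := by gcongr
        _ = N / (N.sqrt + 1) := by ring
    have h2 : (N:ℝ) / (N.sqrt + 1) < N.sqrt + 1 := by
      rw [div_lt_iff₀ (by positivity)]
      exact_mod_cast hlt
    have h3 : |(x0:ℝ) * z - m0 * N| < N.sqrt + 1 := lt_of_le_of_lt h1 h2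
    have h4 : |x0 * z - m0 * N| < s + 1 := by
      rw [hsdef]
      exact_mod_cast h3
    omega
  -- divide by the gcd
  set g : ℤ := (Int.gcd x0 m0 : ℤ) with hg
  have hgpos : 0 < g := by
    rw [hg]
    exact_mod_cast Int.gcd_pos_of_ne_zero_left _ hx0.ne'
  obtain ⟨x, hx⟩ : g ∣ x0 := Int.gcd_dvd_left ..
  obtain ⟨m, hm⟩ : g ∣ m0 := Int.gcd_dvd_right ..
  have hxpos : 0 < x := by
    rw [hx] at hx0
    exact (mul_pos_iff_of_pos_left hgpos).1 hx0
  have hcop : IsCoprime x m := by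
    rw [Int.isCoprime_iff_gcd_eq_one]
    have h1 := Int.gcd_mul_left g x m
    rw [← hx, ← hm] at h1
    have h2 : Int.gcd x0 m0 = g.natAbs := by rw [hg]; simp
    rw [h2] at h1
    have h3 : 0 < g.natAbs := by omega
    exact Nat.eq_of_mul_eq_mul_left h3 (by rw [← h1, mul_one])
  have hxs : x ≤ s := by
    have : x ≤ x0 := by rw [hx]; nlinarith
    omega
  have hys : |x * z - m * N| ≤ s := by
    have e : x0 * z - m0 * N = g * (x * z - m * N) := by rw [hx, hm]; ring
    rw [e, abs_mul, abs_of_pos hgpos] at hy0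
    nlinarith [abs_nonneg (x * z - m * N)]
  -- Bezout
  obtain ⟨u, v, huv⟩ := hcop
  set t := (-v) / x with ht
  set x' := (-v) % x with hx'
  have hx'0 : 0 ≤ x' := Int.emod_nonneg _ hxpos.ne'
  have hx'x : x' < x := Int.emod_lt_of_pos _ hxpos
  have hdiv : x * t + x' = -v := Int.mul_ediv_add_emod (-v) x
  set m' := u - m * t with hm'
  have hdet : x * m' - m * x' = 1 := by
    have e : x' = -v - x * t := by linarith
    rw [e, hm']
    linear_combination huv
  have hgood := h.good x m hxpos (by omega)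
  refine ⟨x, x * z - m * N, x', x' * z - m' * N, m, m', hxpos, hxs, hys, hx'0, by omega, ?_,
    hdet, rfl, rfl⟩
  set y := x * z - m * N with hy
  set y' := x' * z - m' * N with hy'
  have hyy : x * y' - x' * y = -N := by
    rw [hy, hy']
    linear_combination (-(N:ℤ)) * hdet
  have h1 : x * |y'| ≤ x * (13 * |y|) := by
    have e : x * y' = x' * y - N := by linarith
    calc x * |y'| = |x * y'| := by rw [abs_mul, abs_of_pos hxpos]
      _ = |x' * y - N| := by rw [e]
      _ ≤ |x' * y| + |(N:ℤ)| := abs_sub _ _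
      _ = x' * |y| + N := by rw [abs_mul, abs_of_nonneg hx'0, abs_of_nonneg (by positivity : (0:ℤ) ≤ N)]
      _ ≤ x * |y| + 12 * (x * |y|) := by
        have : x' * |y| ≤ x * |y| := by
          apply mul_le_mul_of_nonneg_right hx'x.le (abs_nonneg _)
        linarith
      _ = x * (13 * |y|) := by ring
  have h2 := le_of_mul_le_mul_left h1 hxpos
  linarith

/-- **Lattice points in boxes.** -/
theorem box (N z : ℕ) (h : G N z) (X Y : ℤ) : ∃ a b : ℤ,
    X ≤ a ∧ a ≤ X + 28 * N.sqrt * (2 ^ (6 * N.primeFactors.card) + 1) ∧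
    Y ≤ b ∧ b ≤ Y + 28 * N.sqrt * (2 ^ (6 * N.primeFactors.card) + 1) ∧
    IsCoprime a (N : ℤ) ∧ (N : ℤ) ∣ b - a * z := by
  classical
  obtain ⟨x, y, x', y', m, m', hx, hxs, hys, hx'0, hx's, hy's, hdet, hy, hy'⟩ :=
    short_basis N z h
  have hN2 : 2 ≤ N := by have := h.one_le; have := h.lt; omega
  have hNpos : (0:ℤ) < N := by exact_mod_cast (by omega : 0 < N)
  set s : ℤ := (N.sqrt : ℤ) with hs
  set ω := N.primeFactors.card with hω
  set H : ℤ := 2 ^ (6 * ω) with hH
  have hs0 : 0 ≤ s := by rw [hs]; positivity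
  have hH1 : 1 ≤ H := by
    rw [hH]
    exact_mod_cast Nat.one_le_two_pow
  -- the centre
  set X' := X + 14 * s * (H + 1) with hX'
  set Y' := Y + 14 * s * (H + 1) with hY'
  set I := Y' * x' - X' * y' with hI
  set J := y * X' - x * Y' with hJ
  set i0 := I / N with hi0
  set j0 := J / N with hj0
  set r1 := I % N with hr1
  set r2 := J % N with hr2
  have hI' : (N:ℤ) * i0 + r1 = I := Int.mul_ediv_add_emod I N
  have hJ' : (N:ℤ) * j0 + r2 = J := Int.mul_ediv_add_emod J N
  have hr1a : 0 ≤ r1 := Int.emod_nonneg _ hNpos.ne'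
  have hr2a : 0 ≤ r2 := Int.emod_nonneg _ hNpos.ne'
  have hr1b : r1 < N := Int.emod_lt_of_pos _ hNpos
  have hr2b : r2 < N := Int.emod_lt_of_pos _ hNpos
  have hyy : x * y' - x' * y = -N := by
    rw [hy, hy']
    linear_combination (-(N:ℤ)) * hdet
  have hA : (N:ℤ) * (X' - i0 * x - j0 * x') = r1 * x + r2 * x' := by
    have e1 : (N:ℤ) * i0 = I - r1 := by linarith
    have e2 : (N:ℤ) * j0 = J - r2 := by linarith
    have e3 : (N:ℤ) * (X' - i0 * x - j0 * x') = N * X' - (N * i0) * x - (N * j0) * x' := by ring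
    rw [e3, e1, e2, hI, hJ]
    linear_combination X' * hyy
  have hB : (N:ℤ) * (Y' - i0 * y - j0 * y') = r1 * y + r2 * y' := by
    have e1 : (N:ℤ) * i0 = I - r1 := by linarith
    have e2 : (N:ℤ) * j0 = J - r2 := by linarith
    have e3 : (N:ℤ) * (Y' - i0 * y - j0 * y') = N * Y' - (N * i0) * y - (N * j0) * y' := by ring
    rw [e3, e1, e2, hI, hJ]
    linear_combination Y' * hyy
  -- bounds for the base point
  have hA' : |X' - i0 * x - j0 * x'| ≤ 2 * s := by
    have h1 : (N:ℤ) * |X' - i0 * x - j0 * x'| ≤ N * (2 * s) := by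
      calc (N:ℤ) * |X' - i0 * x - j0 * x'| = |(N:ℤ) * (X' - i0 * x - j0 * x')| := by
            rw [abs_mul, abs_of_pos hNpos]
        _ = |r1 * x + r2 * x'| := by rw [hA]
        _ = r1 * x + r2 * x' := abs_of_nonneg (by positivity)
        _ ≤ N * s + N * s := by
          apply add_le_add
          · exact mul_le_mul hr1b.le hxs hx.le hNpos.le
          · exact mul_le_mul hr2b.le hx's hx'0 hNpos.le
        _ = N * (2 * s) := by ring
    exact le_of_mul_le_mul_left h1 hNpos
  have hB' : |Y' - i0 * y - j0 * y'| ≤ 14 * s := by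
    have h1 : (N:ℤ) * |Y' - i0 * y - j0 * y'| ≤ N * (14 * s) := by
      calc (N:ℤ) * |Y' - i0 * y - j0 * y'| = |(N:ℤ) * (Y' - i0 * y - j0 * y')| := by
            rw [abs_mul, abs_of_pos hNpos]
        _ = |r1 * y + r2 * y'| := by rw [hB]
        _ ≤ |r1 * y| + |r2 * y'| := abs_add_le _ _
        _ = r1 * |y| + r2 * |y'| := by
          rw [abs_mul, abs_mul, abs_of_nonneg hr1a, abs_of_nonneg hr2a]
        _ ≤ N * s + N * (13 * s) := by
          apply add_le_add
          · exact mul_le_mul hr1b.le hys (abs_nonneg _) hNpos.le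
          · exact mul_le_mul hr2b.le hy's (abs_nonneg _) hNpos.le
        _ = N * (14 * s) := by ring
    exact le_of_mul_le_mul_left h1 hNpos
  -- first sieve: primes dividing `x`
  have hcopx : IsCoprime x x' := ⟨m', -m, by linarith⟩
  set S1 := N.primeFactors.filter (fun p : ℕ => (p:ℤ) ∣ x) with hS1
  set S2 := N.primeFactors.filter (fun p : ℕ => ¬ (p:ℤ) ∣ x) with hS2
  obtain ⟨j, hj, hjs⟩ := sieve S1
    (fun p hp => Nat.prime_of_mem_primeFactors (Finset.mem_filter.1 hp).1)
    (fun _ => x') (fun _ => j0 * x') (by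
      intro p hp hdvd
      have hp' := Finset.mem_filter.1 hp
      have hpp : p.Prime := Nat.prime_of_mem_primeFactors hp'.1
      obtain ⟨e, f, hef⟩ := hcopx
      have h1 : (p:ℤ) ∣ 1 := by
        rw [← hef]
        exact dvd_add (Dvd.dvd.mul_left hp'.2 e) (Dvd.dvd.mul_left hdvd f)
      have h2 : p ∣ 1 := by exact_mod_cast h1
      exact hpp.one_lt.ne' (Nat.dvd_one.1 h2))
  obtain ⟨i, hi, his⟩ := sieve S2
    (fun p hp => Nat.prime_of_mem_primeFactors (Finset.mem_filter.1 hp).1)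
    (fun _ => x) (fun _ => i0 * x + (j0 + j) * x') (by
      intro p hp
      exact (Finset.mem_filter.1 hp).2)
  have hiH : (i:ℤ) ≤ H := by
    have h1 : i ≤ 2 ^ (6 * ω) := by
      refine hi.le.trans (Nat.pow_le_pow_right (by norm_num) ?_)
      have : S2.card ≤ ω := Finset.card_le_card (Finset.filter_subset _ _)
      omega
    rw [hH]
    exact_mod_cast h1
  have hjH : (j:ℤ) ≤ H := by
    have h1 : j ≤ 2 ^ (6 * ω) := by
      refine hj.le.trans (Nat.pow_le_pow_right (by norm_num) ?_)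
      have : S1.card ≤ ω := Finset.card_le_card (Finset.filter_subset _ _)
      omega
    rw [hH]
    exact_mod_cast h1
  have hi0' : (0:ℤ) ≤ i := by positivity
  have hj0' : (0:ℤ) ≤ j := by positivity
  rw [abs_le] at hA' hB' hys hy's
  -- the bounds for the translations
  have t1 : 0 ≤ i * x + j * x' := by positivity
  have t2 : i * x + j * x' ≤ 2 * s * H := by
    have h1 : (i:ℤ) * x ≤ H * s := mul_le_mul hiH hxs hx.le (by linarith)
    have h2 : (j:ℤ) * x' ≤ H * s := mul_le_mul hjH hx's hx'0 (by linarith)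
    linarith
  have t3 : |(i:ℤ) * y + j * y'| ≤ 14 * s * H := by
    calc |(i:ℤ) * y + j * y'| ≤ |(i:ℤ) * y| + |j * y'| := abs_add_le _ _
      _ = i * |y| + j * |y'| := by rw [abs_mul, abs_mul, abs_of_nonneg hi0', abs_of_nonneg hj0']
      _ ≤ H * s + H * (13 * s) := by
        apply add_le_add
        · exact mul_le_mul hiH (abs_le.2 hys) (abs_nonneg _) (by linarith)
        · exact mul_le_mul hjH (abs_le.2 hy's) (abs_nonneg _) (by linarith)
      _ = 14 * s * H := by ring
  rw [abs_le] at t3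
  have hsH : 0 ≤ s * H := by positivity
  have eX : X' = X + 14 * (s * H) + 14 * s := by rw [hX']; ring
  have eY : Y' = Y + 14 * (s * H) + 14 * s := by rw [hY']; ring
  have eR : 28 * s * (H + 1) = 28 * (s * H) + 28 * s := by ring
  have t2' : i * x + j * x' ≤ 2 * (s * H) := by linarith
  have t3a : -(14 * (s * H)) ≤ (i:ℤ) * y + j * y' := by linarith [t3.1]
  have t3b : (i:ℤ) * y + j * y' ≤ 14 * (s * H) := by linarith [t3.2]
  obtain ⟨hA1, hA2⟩ := hA'
  obtain ⟨hB1, hB2⟩ := hB'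
  have hsH' : s ≤ s * H := le_mul_of_one_le_right hs0 hH1
  refine ⟨(i0 + i) * x + (j0 + j) * x', (i0 + i) * y + (j0 + j) * y', ?_, ?_, ?_, ?_, ?_, ?_⟩
  · have e : (i0 + i) * x + (j0 + j) * x' = X' - (X' - i0 * x - j0 * x') + (i * x + j * x') := by
      ring
    rw [e]
    linarith
  · have e : (i0 + i) * x + (j0 + j) * x' = X' - (X' - i0 * x - j0 * x') + (i * x + j * x') := by
      ring
    rw [e]
    linarith
  · have e : (i0 + i) * y + (j0 + j) * y' = Y' - (Y' - i0 * y - j0 * y') + (i * y + j * y') := by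
      ring
    rw [e]
    linarith
  · have e : (i0 + i) * y + (j0 + j) * y' = Y' - (Y' - i0 * y - j0 * y') + (i * y + j * y') := by
      ring
    rw [e]
    linarith
  · rw [Int.isCoprime_iff_gcd_eq_one]
    by_contra hne
    obtain ⟨p, hp, hpd⟩ := Nat.exists_prime_and_dvd hne
    have hpa : (p:ℤ) ∣ (i0 + i) * x + (j0 + j) * x' :=
      (Int.natCast_dvd_natCast.2 hpd).trans (Int.gcd_dvd_left ..)
    have hpN : (p:ℤ) ∣ (N:ℤ) := (Int.natCast_dvd_natCast.2 hpd).trans (Int.gcd_dvd_right ..)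
    have hpN' : p ∣ N := by exact_mod_cast hpN
    have hpm : p ∈ N.primeFactors := Nat.mem_primeFactors.2 ⟨hp, hpN', by omega⟩
    by_cases hpx : (p:ℤ) ∣ x
    · have h1 := hjs p (Finset.mem_filter.2 ⟨hpm, hpx⟩)
      apply h1
      have h2 : x' * (j:ℤ) + j0 * x' = ((i0 + i) * x + (j0 + j) * x') - (i0 + i) * x := by ring
      rw [h2]
      exact dvd_sub hpa (Dvd.dvd.mul_left hpx _)
    · have h1 := his p (Finset.mem_filter.2 ⟨hpm, hpx⟩)
      apply h1
      have h2 : x * (i:ℤ) + (i0 * x + (j0 + j) * x') = (i0 + i) * x + (j0 + j) * x' := by ring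
      rw [h2]
      exact hpa
  · refine ⟨-((i0 + i) * m + (j0 + j) * m'), ?_⟩
    rw [hy, hy']
    ring

end Q271.UL
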