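import Pool.Agent.Q271.UL.CF

/-!
# Large denominators with many good numerators
-/

set_option autoImplicit false

namespace Q271.UL

open Filter Topology

theorem exists_many (B : ℕ) : ∃ N : ℕ, B ≤ N ∧ ∃ Z : Finset ℕ, (∀ z ∈ Z, G N z) ∧
    Real.sqrt N ≤ 50 * Z.card := by
  classical
  by_contra hcon
  push Not at hcon
  -- the fibres
  have hfib : ∀ n N : ℕ, B ≤ N →
      (((P n).filter (fun u => u.1 = N)).card : ℝ) ≤ Real.sqrt N / 50 := by
    intro n N hN
    have h := hcon N hN (((P n).filter (fun u => u.1 = N)).image Prod.snd) (by
      intro z hz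
      rw [Finset.mem_image] at hz
      obtain ⟨u, hu, rfl⟩ := hz
      rw [Finset.mem_filter] at hu
      have := (P_spec n u hu.1).1
      rwa [hu.2] at this)
    have hc : (((P n).filter (fun u => u.1 = N)).image Prod.snd).card =
        ((P n).filter (fun u => u.1 = N)).card := by
      apply Finset.card_image_of_injOn
      intro u hu v hv h
      simp only [Finset.coe_filter, Set.mem_ofPred_eq] at hu hv
      exact Prod.ext (hu.2.trans hv.2.symm) h
    rw [hc] at h
    linarith
  have hfib2 : ∀ n N : ℕ, ((P n).filter (fun u => u.1 = N)).card ≤ N := by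
    intro n N
    have hc : (((P n).filter (fun u => u.1 = N)).image Prod.snd).card =
        ((P n).filter (fun u => u.1 = N)).card := by
      apply Finset.card_image_of_injOn
      intro u hu v hv h
      simp only [Finset.coe_filter, Set.mem_ofPred_eq] at hu hv
      exact Prod.ext (hu.2.trans hv.2.symm) h
    rw [← hc]
    calc (((P n).filter (fun u => u.1 = N)).image Prod.snd).card ≤ (Finset.range N).card := by
          apply Finset.card_le_card
          intro z hz
          rw [Finset.mem_image] at hz
          obtain ⟨u, hu, rfl⟩ := hz
          rw [Finset.mem_filter] at hu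
          rw [Finset.mem_range, ← hu.2]
          exact (P_spec n u hu.1).1.lt
      _ = N := Finset.card_range N
  have hbound : ∀ n : ℕ, ((P n).card : ℝ) ≤ B * B + (2 * n + 1) * (Real.sqrt (2 * n) / 50) := by
    intro n
    have h1 : (P n).card = ∑ N ∈ Finset.range (2 * n + 1),
        ((P n).filter (fun u => u.1 = N)).card := by
      apply Finset.card_eq_sum_card_fiberwise
      intro u hu
      have := (P_spec n u hu).2
      simp only [Finset.coe_range, Set.mem_Iio]
      omega
    rw [h1]
    push_cast
    calc ∑ N ∈ Finset.range (2 * n + 1), (((P n).filter (fun u => u.1 = N)).card : ℝ)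
        ≤ ∑ N ∈ Finset.range (2 * n + 1), ((if N < B then (B:ℝ) else 0) + Real.sqrt (2 * n) / 50) := by
          apply Finset.sum_le_sum
          intro N hN
          rw [Finset.mem_range] at hN
          have hs : 0 ≤ Real.sqrt (2 * n) / 50 := by positivity
          split_ifs with h
          · have h2 : (((P n).filter (fun u => u.1 = N)).card : ℝ) ≤ N := by
              exact_mod_cast hfib2 n N
            have h3 : (N:ℝ) ≤ B := by exact_mod_cast h.le
            linarith
          · have h2 := hfib n N (by omega)
            have h3 : Real.sqrt N ≤ Real.sqrt (2 * n) := by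
              apply Real.sqrt_le_sqrt
              have : N ≤ 2 * n := by omega
              exact_mod_cast this
            linarith
      _ ≤ B * B + (2 * n + 1) * (Real.sqrt (2 * n) / 50) := by
          rw [Finset.sum_add_distrib, Finset.sum_const, Finset.card_range, nsmul_eq_mul,
            ← Finset.sum_filter, Finset.sum_const, nsmul_eq_mul]
          push_cast
          have h2 : (((Finset.range (2 * n + 1)).filter (fun N => N < B)).card : ℝ) ≤ B := by
            have : ((Finset.range (2 * n + 1)).filter (fun N => N < B)).card ≤ B := by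
              calc _ ≤ (Finset.range B).card := by
                    apply Finset.card_le_card
                    intro N hN
                    rw [Finset.mem_filter] at hN
                    exact Finset.mem_range.2 hN.2
                _ = B := Finset.card_range B
            exact_mod_cast this
          have hB : (0:ℝ) ≤ B := Nat.cast_nonneg _
          nlinarith
  -- choose `n` large
  obtain ⟨n, hn⟩ := exists_nat_gt (100 * (9 * (B:ℝ) * B + 2))
  have h1 := card_P_ge n
  have h2 := hbound n
  have hn0 : (0:ℝ) ≤ n := Nat.cast_nonneg _
  have hB0 : (0:ℝ) ≤ (B:ℝ) * B := by positivity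
  have hs1 : (1:ℝ) ≤ Real.sqrt (n + 1) := by
    rw [Real.one_le_sqrt]
    linarith
  have hs2 : Real.sqrt (2 * n) ≤ 1.4143 * Real.sqrt (n + 1) := by
    calc Real.sqrt (2 * n) ≤ Real.sqrt (1.4143 ^ 2 * (n + 1)) := by
          apply Real.sqrt_le_sqrt
          nlinarith
      _ = 1.4143 * Real.sqrt (n + 1) := by
          rw [Real.sqrt_mul (by norm_num), Real.sqrt_sq (by norm_num)]
  have h3 : (2 * (n:ℝ) + 1) * (Real.sqrt (2 * n) / 50) ≤
      2 * (n + 1) * (1.4143 * Real.sqrt (n + 1) / 50) := by
    gcongr
    linarith
  have h4 : ((n:ℝ) + 1) * 1 ≤ ((n:ℝ) + 1) * Real.sqrt (n + 1) := by gcongr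
  nlinarith

end Q271.UL
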