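import Mathlib
import Pool.Agent.Q271.UL.CF

/-!
# The product of the distances near a good rational point
-/

set_option autoImplicit false

namespace Q271.UL

/-- distance to the nearest integer -/
noncomputable def nrm (t : ℝ) : ℝ := |t - round t|

lemma good_int {N z : ℕ} (h : G N z) (a b : ℤ) (ha : IsCoprime a (N : ℤ))
    (hb : (N : ℤ) ∣ b - a * z) (q : ℕ) (hq1 : 1 ≤ q) (hqN : q < N) (c d : ℤ) :
    1 ≤ |q * a - c * N| ∧ 1 ≤ |q * b - d * N| ∧
      (N : ℤ) ≤ 12 * (|q * a - c * N| * |q * b - d * N|) := by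
  have hN : (0:ℤ) < N := by exact_mod_cast (by omega : 0 < N)
  have hq0 : (0:ℤ) < q := by exact_mod_cast hq1
  have hqN' : (q:ℤ) < N := by exact_mod_cast hqN
  have hNz : IsCoprime (N : ℤ) (z : ℤ) := Nat.isCoprime_iff_coprime.2 h.cop
  obtain ⟨w, hw⟩ := hb
  have h1 : q * a - c * N ≠ 0 := by
    intro h0
    have h2 : (N : ℤ) ∣ q * a := ⟨c, by linarith⟩
    have h3 : (N : ℤ) ∣ q := ha.symm.dvd_of_dvd_mul_right h2
    have := Int.le_of_dvd hq0 h3
    omega
  have h2 : q * b - d * N ≠ 0 := by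
    intro h0
    have e : q * b = d * N := by linarith
    have h3 : (N : ℤ) ∣ (q * a) * z := by
      refine ⟨d - q * w, ?_⟩
      have e2 : b = a * z + N * w := by linarith
      rw [e2] at e
      linear_combination e
    have h4 : (N : ℤ) ∣ q * a := hNz.dvd_of_dvd_mul_right h3
    have h5 : (N : ℤ) ∣ q := ha.symm.dvd_of_dvd_mul_right h4
    have := Int.le_of_dvd hq0 h5
    omega
  have h1' : 1 ≤ |q * a - c * N| := Int.one_le_abs h1
  have h2' : 1 ≤ |q * b - d * N| := Int.one_le_abs h2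
  refine ⟨h1', h2', ?_⟩
  by_cases hlt : |q * a - c * N| < N
  · set X := q * a - c * N with hX
    -- `q b - d N = X z - p N`
    obtain ⟨p, hp⟩ : ∃ p : ℤ, q * b - d * N = X * z - p * N := by
      refine ⟨-(c * z + q * w - d), ?_⟩
      have e2 : b = a * z + N * w := by linarith
      rw [hX, e2]
      ring
    rw [hp]
    rcases lt_or_gt_of_ne h1 with hneg | hpos
    · have h3 := h.good (-X) (-p) (by linarith) (by rw [abs_of_neg hneg] at hlt; exact hlt)
      have e : -X * z - -p * N = -(X * z - p * N) := by ring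
      rw [e, abs_neg] at h3
      rw [abs_of_neg hneg]
      exact h3
    · have h3 := h.good X p hpos (by rw [abs_of_pos hpos] at hlt; exact hlt)
      rw [abs_of_pos hpos]
      exact h3
  · push Not at hlt
    nlinarith

/-- **Near a good rational point the products are not small.** -/
lemma good_point {N z : ℕ} (h : G N z) (a b : ℤ) (ha : IsCoprime a (N : ℤ))
    (hb : (N : ℤ) ∣ b - a * z) (ξ ζ : ℝ) (hξ : |ξ - a / N| ≤ 1 / (4 * (N:ℝ) ^ 2))
    (hζ : |ζ - b / N| ≤ 1 / (4 * (N:ℝ) ^ 2)) (q : ℕ) (hq1 : 1 ≤ q) (hqN : q < N) :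
    3 / 64 / (N : ℝ) ≤ nrm (q * ξ) * nrm (q * ζ) := by
  have hN : (0:ℝ) < N := by exact_mod_cast (by omega : 0 < N)
  have hqN' : (q:ℝ) ≤ N := by exact_mod_cast hqN.le
  have hq0 : (0:ℝ) < q := by exact_mod_cast hq1
  set c := round (q * ξ) with hc
  set d := round (q * ζ) with hd
  obtain ⟨h1, h2, h3⟩ := good_int h a b ha hb q hq1 hqN c d
  have h1' : (1:ℝ) ≤ |(q:ℝ) * a - c * N| := by exact_mod_cast h1
  have h2' : (1:ℝ) ≤ |(q:ℝ) * b - d * N| := by exact_mod_cast h2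
  have h3' : (N:ℝ) ≤ 12 * (|(q:ℝ) * a - c * N| * |(q:ℝ) * b - d * N|) := by exact_mod_cast h3
  -- general estimate
  have key : ∀ (η : ℝ) (a c : ℤ), |η - a / N| ≤ 1 / (4 * (N:ℝ) ^ 2) →
      (1:ℝ) ≤ |(q:ℝ) * a - c * N| → 3 / 4 * |(q:ℝ) * a - c * N| / N ≤ |q * η - c| := by
    intro η a c hη hac
    have e1 : (q:ℝ) * a - c * N = N * (q * η - c) - N * (q * (η - a / N)) := by
      field_simp
      ring
    have e2 : |(N:ℝ) * (q * (η - a / N))| ≤ 1 / 4 := by
      rw [abs_mul, abs_mul, abs_of_pos hN, abs_of_pos hq0]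
      calc (N:ℝ) * (q * |η - a / N|) ≤ N * (N * (1 / (4 * (N:ℝ) ^ 2))) := by gcongr
        _ = 1 / 4 := by field_simp
    have e3 : |(q:ℝ) * a - c * N| ≤ N * |q * η - c| + 1 / 4 := by
      rw [e1]
      calc |(N:ℝ) * (q * η - c) - N * (q * (η - a / N))| ≤ |(N:ℝ) * (q * η - c)| + |N * (q * (η - a / N))| := abs_sub _ _
        _ ≤ N * |q * η - c| + 1 / 4 := by
          rw [abs_mul, abs_of_pos hN]
          linarith
    rw [div_le_iff₀ hN]
    linarith
  have k1 := key ξ a c hξ h1'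
  have k2 := key ζ b d hζ h2'
  unfold nrm
  rw [← hc, ← hd]
  have hpos1 : 0 ≤ 3 / 4 * |(q:ℝ) * a - c * N| / N := by positivity
  have hpos2 : 0 ≤ 3 / 4 * |(q:ℝ) * b - d * N| / N := by positivity
  calc 3 / 64 / (N : ℝ) = 9 / 16 * (1 / 12) * N / N ^ 2 := by field_simp; norm_num
    _ ≤ 9 / 16 * (1 / 12) * (12 * (|(q:ℝ) * a - c * N| * |(q:ℝ) * b - d * N|)) / N ^ 2 := by gcongr
    _ = (3 / 4 * |(q:ℝ) * a - c * N| / N) * (3 / 4 * |(q:ℝ) * b - d * N| / N) := by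
      field_simp
      ring
    _ ≤ |q * ξ - c| * |q * ζ - d| := mul_le_mul k1 k2 hpos2 (abs_nonneg _)

/-- the points that are good for some scale at least `k` -/
def W (k : ℕ) : Set (ℝ × ℝ) := {v | ∃ Q : ℕ, k ≤ Q ∧ 1 ≤ Q ∧
  ∀ q : ℕ, 1 ≤ q → q ≤ Q → 1 / 50 / (Q:ℝ) ≤ nrm (q * v.1) * nrm (q * v.2)}

lemma ball_subset_W {N z : ℕ} (h : G N z) (a b : ℤ) (ha : IsCoprime a (N : ℤ))
    (hb : (N : ℤ) ∣ b - a * z) (k : ℕ) (hk : k + 1 ≤ N) :
    Metric.closedBall (((a:ℝ) / N, (b:ℝ) / N) : ℝ × ℝ) (1 / (4 * (N:ℝ) ^ 2)) ⊆ W k := by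
  intro v hv
  have hN2 : 2 ≤ N := by have := h.one_le; have := h.lt; omega
  have hNr : (2:ℝ) ≤ N := by exact_mod_cast hN2
  rw [Metric.mem_closedBall, Prod.dist_eq, max_le_iff, Real.dist_eq, Real.dist_eq] at hv
  refine ⟨N - 1, by omega, by omega, ?_⟩
  intro q hq1 hq
  have h1 := good_point h a b ha hb v.1 v.2 hv.1 hv.2 q hq1 (by omega)
  refine le_trans ?_ h1
  have e : ((N - 1 : ℕ) : ℝ) = N - 1 := by rw [Nat.cast_sub (by omega)]; simp
  rw [e, div_le_div_iff₀ (by linarith) (by linarith)]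
  nlinarith

end Q271.UL
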