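import Mathlib

/-!
# Lower bounds for Hausdorff dimension by ordered Cantor constructions, general form

`Data s K U W` : in every closed ball `B(x, r) ⊆ U` and for every `k` there are `M` points
`y 0, ..., y (M - 1)` such that the balls `B(y i, τ)` lie in `W k ∩ B(x, r)`, `r ^ s ≤ M τ ^ s`,
`dist (y i) (y j) ≥ 4 τ` and `|i - j| r ^ s ≤ K M dist (y i) (y j) ^ s`.
-/

set_option autoImplicit false

namespace Q271.Tree

open Metric Set

variable {X : Type} [MetricSpace X]

/-- The refinement property. -/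
def Data (s K : ℝ) (U : Set X) (W : ℕ → Set X) : Prop :=
  ∀ (k : ℕ) (x : X) (r : ℝ), 0 < r → closedBall x r ⊆ U →
    ∃ (M : ℕ) (τ : ℝ) (y : ℕ → X), 2 ≤ M ∧ 0 < τ ∧ r ^ s ≤ M * τ ^ s ∧
      (∀ i : ℕ, i < M → closedBall (y i) τ ⊆ W k ∩ closedBall x r) ∧
      (∀ i j : ℕ, i < M → j < M → i ≠ j → 4 * τ ≤ dist (y i) (y j) ∧
        |(i : ℝ) - j| * r ^ s ≤ K * M * dist (y i) (y j) ^ s)

/-- a node of the tree: a ball and an interval `[a, a + l)` -/
structure Node (X : Type) where
  x : X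
  r : ℝ
  a : ℝ
  l : ℝ

section
variable {s K : ℝ} {U : Set X} {W : ℕ → Set X}

open Classical in
/-- the chosen data: `(M, τ, y)` -/
noncomputable def pick (h : Data s K U W) (k : ℕ) (x : X) (r : ℝ) : ℕ × ℝ × (ℕ → X) :=
  if hx : 0 < r ∧ closedBall x r ⊆ U then
    ⟨(h k x r hx.1 hx.2).choose, (h k x r hx.1 hx.2).choose_spec.choose,
      (h k x r hx.1 hx.2).choose_spec.choose_spec.choose⟩
  else (2, 1, fun _ => x)

lemma pick_spec (h : Data s K U W) (k : ℕ) (x : X) (r : ℝ) (hr : 0 < r)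
    (hx : closedBall x r ⊆ U) :
    2 ≤ (pick h k x r).1 ∧ 0 < (pick h k x r).2.1 ∧
    r ^ s ≤ (pick h k x r).1 * (pick h k x r).2.1 ^ s ∧
      (∀ i : ℕ, i < (pick h k x r).1 →
        closedBall ((pick h k x r).2.2 i) (pick h k x r).2.1 ⊆ W k ∩ closedBall x r) ∧
      (∀ i j : ℕ, i < (pick h k x r).1 → j < (pick h k x r).1 → i ≠ j →
        4 * (pick h k x r).2.1 ≤ dist ((pick h k x r).2.2 i) ((pick h k x r).2.2 j) ∧
        |(i : ℝ) - j| * r ^ s ≤
          K * (pick h k x r).1 * dist ((pick h k x r).2.2 i) ((pick h k x r).2.2 j) ^ s) := by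
  rw [pick, dif_pos ⟨hr, hx⟩]
  exact (h k x r hr hx).choose_spec.choose_spec.choose_spec

/-- the number of children -/
noncomputable def num (h : Data s K U W) (k : ℕ) (N : Node X) : ℕ := (pick h k N.x N.r).1

/-- the index of the child that belongs to `z` -/
noncomputable def idx (h : Data s K U W) (k : ℕ) (N : Node X) (z : ℝ) : ℕ :=
  ⌊(z - N.a) * num h k N / N.l⌋₊

/-- the child with index `i` -/
noncomputable def child (h : Data s K U W) (k : ℕ) (N : Node X) (i : ℕ) : Node X :=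
  ⟨(pick h k N.x N.r).2.2 i, (pick h k N.x N.r).2.1, N.a + i * (N.l / num h k N),
    N.l / num h k N⟩

/-- the nodes that belong to `z` -/
noncomputable def node (h : Data s K U W) (x0 : X) (r0 : ℝ) (z : ℝ) : ℕ → Node X
  | 0 => ⟨x0, r0, 0, 1⟩
  | k + 1 => child h k (node h x0 r0 z k) (idx h k (node h x0 r0 z k) z)

/-- the invariant -/
structure Inv (s C : ℝ) (U : Set X) (N : Node X) (z : ℝ) : Prop where
  r_pos : 0 < N.r
  sub : closedBall N.x N.r ⊆ U
  l_pos : 0 < N.l
  l_le : N.l ≤ C * N.r ^ s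
  a_le : N.a ≤ z
  z_lt : z < N.a + N.l

lemma two_le_num (h : Data s K U W) (k : ℕ) (N : Node X) {C z : ℝ} (hI : Inv s C U N z) :
    2 ≤ num h k N := (pick_spec h k N.x N.r hI.r_pos hI.sub).1

lemma idx_lt (h : Data s K U W) (k : ℕ) (N : Node X) {C z : ℝ} (hI : Inv s C U N z) :
    idx h k N z < num h k N := by
  have h2 := two_le_num h k N hI
  rw [idx, Nat.floor_lt' (by omega)]
  have h0 : (0:ℝ) < num h k N := by
    have : 0 < num h k N := by omega
    exact_mod_cast this
  rw [div_lt_iff₀ hI.l_pos]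
  have h1 := hI.z_lt
  nlinarith

lemma child_inv (h : Data s K U W) (k : ℕ) (N : Node X) {C z : ℝ}
    (hI : Inv s C U N z) : Inv s C U (child h k N (idx h k N z)) z ∧
      closedBall (child h k N (idx h k N z)).x (child h k N (idx h k N z)).r ⊆
        W k ∩ closedBall N.x N.r := by
  obtain ⟨h1, h2, h3, h5, h6⟩ := pick_spec h k N.x N.r hI.r_pos hI.sub
  have hr := hI.r_pos
  have h2n := two_le_num h k N hI
  have hm : (0:ℝ) < num h k N := by
    have : 0 < num h k N := by omega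
    exact_mod_cast this
  have hsub := h5 _ (idx_lt h k N hI)
  refine ⟨⟨h2, ?_, ?_, ?_, ?_, ?_⟩, hsub⟩
  · exact fun w hw => hI.sub (hsub hw).2
  · exact div_pos hI.l_pos hm
  · show N.l / num h k N ≤ C * (pick h k N.x N.r).2.1 ^ s
    rw [div_le_iff₀ hm]
    have h8 : 0 < N.r ^ s := Real.rpow_pos_of_pos hr s
    have hC : 0 ≤ C := by
      by_contra hneg
      push Not at hneg
      have := hI.l_le
      have := hI.l_pos
      nlinarith
    refine hI.l_le.trans ?_
    rw [mul_assoc]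
    apply mul_le_mul_of_nonneg_left _ hC
    rw [mul_comm]
    exact h3
  · show N.a + (idx h k N z : ℝ) * (N.l / num h k N) ≤ z
    have h7 : (idx h k N z : ℝ) ≤ (z - N.a) * num h k N / N.l :=
      Nat.floor_le (div_nonneg (mul_nonneg (by linarith [hI.a_le]) hm.le) hI.l_pos.le)
    rw [le_div_iff₀ hI.l_pos] at h7
    have h8 : (idx h k N z : ℝ) * (N.l / num h k N) ≤ z - N.a := by
      rw [← mul_div_assoc, div_le_iff₀ hm]
      exact h7
    linarith
  · show z < N.a + (idx h k N z : ℝ) * (N.l / num h k N) + N.l / num h k N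
    have h7 : (z - N.a) * num h k N / N.l < (idx h k N z : ℝ) + 1 := Nat.lt_floor_add_one _
    rw [div_lt_iff₀ hI.l_pos] at h7
    have h8 : z - N.a < ((idx h k N z : ℝ) + 1) * (N.l / num h k N) := by
      rw [← mul_div_assoc, lt_div_iff₀ hm]
      exact h7
    linarith

lemma node_inv (h : Data s K U W) (x0 : X) (r0 : ℝ) (hr0 : 0 < r0)
    (hx0 : closedBall x0 r0 ⊆ U) (z : ℝ) (hz : z ∈ Ico (0:ℝ) 1) (k : ℕ) :
    Inv s ((r0 ^ s)⁻¹) U (node h x0 r0 z k) z := by
  induction k with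
  | zero =>
    have h1 : 0 < r0 ^ s := Real.rpow_pos_of_pos hr0 s
    refine ⟨hr0, hx0, one_pos, ?_, hz.1, ?_⟩
    · show (1:ℝ) ≤ (r0 ^ s)⁻¹ * r0 ^ s
      rw [inv_mul_cancel₀ h1.ne']
    · show z < 0 + 1
      linarith [hz.2]
  | succ k ih => exact (child_inv h k _ ih).1

lemma node_l (h : Data s K U W) (x0 : X) (r0 : ℝ) (hr0 : 0 < r0)
    (hx0 : closedBall x0 r0 ⊆ U) (z : ℝ) (hz : z ∈ Ico (0:ℝ) 1) (k : ℕ) :
    (node h x0 r0 z k).l ≤ (1 / 2) ^ k := by
  induction k with
  | zero => simp [node]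
  | succ k ih =>
    have hI := node_inv h x0 r0 hr0 hx0 z hz k
    show (node h x0 r0 z k).l / num h k (node h x0 r0 z k) ≤ _
    have h2 : (2:ℝ) ≤ num h k (node h x0 r0 z k) := by exact_mod_cast two_le_num h k _ hI
    rw [pow_succ, div_le_iff₀ (by linarith)]
    have h3 : (0:ℝ) ≤ (1 / 2) ^ k := by positivity
    nlinarith

end

/-- **The dimension bound.** -/
theorem le_dimH [ProperSpace X] {s K : ℝ} (hs : 0 < s) (hK : 0 ≤ K) {U : Set X}
    {W : ℕ → Set X} (hU : IsOpen U) (hne : U.Nonempty) (h : Data s K U W) :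
    ENNReal.ofReal s ≤ dimH (U ∩ ⋂ k, W k) := by
  obtain ⟨x0, hx0⟩ := hne
  obtain ⟨r0, hr0, hsub⟩ := Metric.nhds_basis_closedBall.mem_iff.1 (hU.mem_nhds hx0)
  set nd := node h x0 r0 with hnd
  set C := (r0 ^ s)⁻¹ with hC
  have hCpos : 0 < C := inv_pos.2 (Real.rpow_pos_of_pos hr0 s)
  have hI : ∀ z ∈ Ico (0:ℝ) 1, ∀ k, Inv s C U (nd z k) z := fun z hz k =>
    node_inv h x0 r0 hr0 hsub z hz k
  have hstep : ∀ z ∈ Ico (0:ℝ) 1, ∀ k, closedBall (nd z (k + 1)).x (nd z (k + 1)).r ⊆
      W k ∩ closedBall (nd z k).x (nd z k).r := fun z hz k => (child_inv h k _ (hI z hz k)).2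
  have hlim : ∀ z ∈ Ico (0:ℝ) 1, ∃ g : X, ∀ k, g ∈ closedBall (nd z k).x (nd z k).r := by
    intro z hz
    have := IsCompact.nonempty_iInter_of_sequence_nonempty_isCompact_isClosed
      (fun k => closedBall (nd z k).x (nd z k).r) (fun k => (hstep z hz k).trans inter_subset_right)
      (fun k => ⟨_, mem_closedBall_self (hI z hz k).r_pos.le⟩) (isCompact_closedBall _ _)
      (fun k => isClosed_closedBall)
    obtain ⟨g, hg⟩ := this
    exact ⟨g, fun k => mem_iInter.1 hg k⟩
  have : Nonempty X := ⟨x0⟩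
  choose! g hg using hlim
  have hmem : ∀ z ∈ Ico (0:ℝ) 1, g z ∈ U ∩ ⋂ k, W k := by
    intro z hz
    refine ⟨(hI z hz 0).sub (hg z hz 0), mem_iInter.2 fun k => (hstep z hz k (hg z hz (k + 1))).1⟩
  set L : ℝ := 2 * C * K * 2 ^ s with hL
  have hL0 : 0 ≤ L := by positivity
  -- the key estimate
  have key : ∀ z ∈ Ico (0:ℝ) 1, ∀ z' ∈ Ico (0:ℝ) 1, z < z' →
      z' - z ≤ L * dist (g z) (g z') ^ s := by
    intro z hz z' hz' hzz
    have hex : ∃ k, nd z k ≠ nd z' k := by
      by_contra hcon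
      push Not at hcon
      obtain ⟨k, hk⟩ := exists_pow_lt_of_lt_one (sub_pos.2 hzz) (show (1 / 2 : ℝ) < 1 by norm_num)
      have h1 := (hI z hz k).a_le
      have h2 := (hI z' hz' k).z_lt
      rw [← hcon k] at h2
      have h3 := node_l h x0 r0 hr0 hsub z hz k
      rw [← hnd] at h3
      linarith
    classical
    obtain ⟨k₀, hK1, hKmin⟩ : ∃ k₀, nd z (k₀ + 1) ≠ nd z' (k₀ + 1) ∧ nd z k₀ = nd z' k₀ := by
      have h0 : Nat.find hex ≠ 0 := by
        intro h0
        exact (Nat.find_spec hex) (by rw [h0]; rfl)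
      refine ⟨Nat.find hex - 1, ?_, ?_⟩
      · rw [Nat.sub_add_cancel (Nat.one_le_iff_ne_zero.2 h0)]
        exact Nat.find_spec hex
      · by_contra hne
        exact Nat.find_min hex (by omega) hne
    set N := nd z k₀ with hN
    have hIz := hI z hz k₀
    have hIz' := hI z' hz' k₀
    rw [← hN] at hIz
    rw [← hKmin] at hIz'
    obtain ⟨h1, h2, h3, h5, h6⟩ := pick_spec h k₀ N.x N.r hIz.r_pos hIz.sub
    have hMn : num h k₀ N = (pick h k₀ N.x N.r).1 := rfl
    rw [← hMn] at h1 h3 h5 h6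
    set τ := (pick h k₀ N.x N.r).2.1
    set y := (pick h k₀ N.x N.r).2.2
    set M := num h k₀ N
    have hr := hIz.r_pos
    set i := idx h k₀ N z with hi
    set j := idx h k₀ N z' with hj
    have e1 : nd z (k₀ + 1) = child h k₀ N i := rfl
    have e2 : nd z' (k₀ + 1) = child h k₀ N j := by
      show child h k₀ (nd z' k₀) (idx h k₀ (nd z' k₀) z') = _
      rw [← hKmin]
    have hij : i ≠ j := by
      intro e
      apply hK1
      rw [e1, e2, e]
    have hm : (0:ℝ) < M := by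
      have : 0 < M := by omega
      exact_mod_cast this
    have hle : i ≤ j := by
      apply Nat.floor_le_floor
      apply div_le_div_of_nonneg_right _ hIz.l_pos.le
      apply mul_le_mul_of_nonneg_right _ hm.le
      linarith
    have hlt : (i:ℝ) + 1 ≤ j := by exact_mod_cast lt_of_le_of_ne hle hij
    have hi' := (child_inv h k₀ N hIz).1
    have hj' := (child_inv h k₀ N hIz').1
    have hz1 : N.a + i * (N.l / M) ≤ z := hi'.a_le
    have hz2 : z' < N.a + j * (N.l / M) + N.l / M := hj'.z_lt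
    have hgz : g z ∈ closedBall (y i) τ := by
      have := hg z hz (k₀ + 1)
      rw [e1] at this
      exact this
    have hgz' : g z' ∈ closedBall (y j) τ := by
      have := hg z' hz' (k₀ + 1)
      rw [e2] at this
      exact this
    obtain ⟨hsep1, hsep2⟩ := h6 i j (idx_lt h k₀ N hIz) (idx_lt h k₀ N hIz') hij
    have habs : |(i:ℝ) - j| = j - i := by rw [abs_sub_comm, abs_of_pos (by linarith)]
    rw [habs] at hsep2
    set D := dist (g z) (g z') with hD
    have hD1 : dist (y i) (y j) ≤ 2 * D := by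
      have t1 : dist (y i) (y j) ≤ dist (y i) (g z) + dist (g z) (g z') + dist (g z') (y j) :=
        dist_triangle4 _ _ _ _
      have t2 : dist (g z) (y i) ≤ τ := hgz
      have t3 : dist (g z') (y j) ≤ τ := hgz'
      rw [dist_comm (y i) (g z)] at t1
      linarith
    have hD0 : 0 ≤ D := dist_nonneg
    have hlM : 0 < N.l / M := div_pos hIz.l_pos hm
    calc z' - z ≤ ((j:ℝ) - i + 1) * (N.l / M) := by nlinarith
      _ ≤ (2 * ((j:ℝ) - i)) * (N.l / M) := by
          apply mul_le_mul_of_nonneg_right _ hlM.le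
          linarith
      _ ≤ (2 * ((j:ℝ) - i)) * (C * N.r ^ s / M) := by
          apply mul_le_mul_of_nonneg_left _ (by linarith)
          exact div_le_div_of_nonneg_right hIz.l_le hm.le
      _ = 2 * C * (((j:ℝ) - i) * N.r ^ s) / M := by ring
      _ ≤ 2 * C * (K * M * dist (y i) (y j) ^ s) / M := by
          apply div_le_div_of_nonneg_right _ hm.le
          apply mul_le_mul_of_nonneg_left hsep2 (by positivity)
      _ = 2 * C * K * dist (y i) (y j) ^ s := by field_simp
      _ ≤ 2 * C * K * (2 * D) ^ s := by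
          apply mul_le_mul_of_nonneg_left _ (by positivity)
          exact Real.rpow_le_rpow dist_nonneg hD1 hs.le
      _ = L * D ^ s := by
          rw [Real.mul_rpow (by norm_num) hD0, hL]; ring
  have key' : ∀ z ∈ Ico (0:ℝ) 1, ∀ z' ∈ Ico (0:ℝ) 1,
      |z' - z| ≤ L * dist (g z) (g z') ^ s := by
    intro z hz z' hz'
    rcases lt_trichotomy z z' with hlt | heq | hgt
    · rw [abs_of_pos (by linarith)]
      exact key z hz z' hz' hlt
    · rw [heq, sub_self, abs_zero, dist_self]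
      have := Real.rpow_nonneg (le_refl (0:ℝ)) s
      positivity
    · rw [abs_sub_comm, abs_of_pos (by linarith), dist_comm]
      exact key z' hz' z hz hgt
  have hinj : InjOn g (Ico (0:ℝ) 1) := by
    intro z hz z' hz' e
    have h1 := key' z hz z' hz'
    rw [e, dist_self, Real.zero_rpow hs.ne', mul_zero] at h1
    have h2 : z' - z = 0 := abs_eq_zero.1 (le_antisymm h1 (abs_nonneg _))
    linarith
  set φ := Function.invFunOn g (Ico (0:ℝ) 1) with hφ
  have hφg : ∀ z ∈ Ico (0:ℝ) 1, φ (g z) = z := fun z hz => hinj.leftInvOn_invFunOn hz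
  set T := g '' Ico (0:ℝ) 1 with hT
  have hHolder : HolderOnWith (Real.toNNReal L) (Real.toNNReal s) φ T := by
    rintro _ ⟨z, hz, rfl⟩ _ ⟨z', hz', rfl⟩
    rw [hφg z hz, hφg z' hz', edist_dist, edist_dist, Real.dist_eq]
    have h1 := key' z' hz' z hz
    rw [dist_comm] at h1
    have h2 : ((Real.toNNReal s : NNReal) : ℝ) = s := Real.coe_toNNReal s hs.le
    rw [h2, ENNReal.ofReal_rpow_of_nonneg dist_nonneg hs.le]
    have h3 : ((Real.toNNReal L : NNReal) : ENNReal) = ENNReal.ofReal L := rfl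
    rw [h3, ← ENNReal.ofReal_mul hL0]
    exact ENNReal.ofReal_le_ofReal h1
  have h1 := hHolder.dimH_image_le (by simpa using hs)
  have h2 : φ '' T = Ico (0:ℝ) 1 := by
    rw [hT, image_image]
    ext w
    constructor
    · rintro ⟨z, hz, rfl⟩
      show φ (g z) ∈ _
      rw [hφg z hz]; exact hz
    · intro hw
      exact ⟨w, hw, hφg w hw⟩
  have h3 : dimH (Ico (0:ℝ) 1) = 1 := by
    rw [Real.dimH_of_nonempty_interior]
    · simp
    · rw [interior_Ico]
      exact ⟨1 / 2, by norm_num, by norm_num⟩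
  rw [h2, h3] at h1
  have h4 : dimH T ≤ dimH (U ∩ ⋂ k, W k) := by
    apply dimH_mono
    rintro _ ⟨z, hz, rfl⟩
    exact hmem z hz
  refine le_trans ?_ h4
  have h5 : ENNReal.ofReal s = ((Real.toNNReal s : NNReal) : ENNReal) := rfl
  rw [h5]
  have h6 : ((Real.toNNReal s : NNReal) : ENNReal) ≠ 0 := by
    simpa using hs
  rwa [ENNReal.le_div_iff_mul_le (Or.inl h6) (Or.inl ENNReal.coe_ne_top), one_mul] at h1

end Q271.Tree
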