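import Mathlib
import Pool.Agent.Q271.UL.Box
import Pool.Agent.Q271.UL.Point
import Pool.Agent.Q271.UL.Pigeon
import Pool.Agent.Q271.UL.Tree

/-!
# Good points in every small ball
-/

set_option autoImplicit false

namespace Q271.UL

lemma ex_const (K : ℕ) : ∃ C : ℕ, ∀ N : ℕ, N ≠ 0 →
    2 ^ (K * N.primeFactors.card) ≤ C * N := ⟨_, omega_bound K⟩

lemma idx_diff (P i e i' e' : ℕ) (he : e < P) (he' : e' < P) (hne : i ≠ i') :
    |((i * P + e : ℕ) : ℝ) - ((i' * P + e' : ℕ) : ℝ)| ≤ 2 * |(i:ℝ) - i'| * P := by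
  have h1 : (1:ℝ) ≤ |(i:ℝ) - i'| := by
    have : (1:ℤ) ≤ |(i:ℤ) - i'| := Int.one_le_abs (by omega)
    exact_mod_cast this
  have h2 : (e:ℝ) < P := by exact_mod_cast he
  have h3 : (e':ℝ) < P := by exact_mod_cast he'
  have e0 : (0:ℝ) ≤ e := by positivity
  have e1 : (0:ℝ) ≤ e' := by positivity
  have h4 : |(e:ℝ) - e'| ≤ P := by
    rw [abs_le]
    constructor <;> linarith
  have hP : (0:ℝ) ≤ P := by positivity
  push_cast
  calc |(i:ℝ) * P + e - (i' * P + e')| = |((i:ℝ) - i') * P + (e - e')| := by ring_nf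
    _ ≤ |((i:ℝ) - i') * P| + |(e:ℝ) - e'| := abs_add_le _ _
    _ ≤ |(i:ℝ) - i'| * P + 1 * P := by
      rw [abs_mul, abs_of_nonneg hP]
      linarith
    _ ≤ |(i:ℝ) - i'| * P + |(i:ℝ) - i'| * P := by gcongr
    _ = 2 * |(i:ℝ) - i'| * P := by ring

lemma key_ineq (r R N n D d : ℝ) (hr : 0 < r) (hR : 0 < R) (hN : 0 < N)
    (h1 : r ≤ 8 * R * n / N) (hD : 1 ≤ D) (hDn : D ≤ n) (hd : 3 * R * D / N ≤ d) :
    2 * D * r ^ (2/3:ℝ) ≤ 6 * n * d ^ (2/3:ℝ) := by
  have hD0 : 0 < D := by linarith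
  have hn : 0 < n := by linarith
  have h2 : r ≤ (8 * n / (3 * D)) * (3 * R * D / N) := by
    refine h1.trans (le_of_eq ?_)
    field_simp
  have h3 : 1 ≤ 8 * n / (3 * D) := by
    rw [le_div_iff₀ (by positivity)]
    linarith
  have h4 : r ^ (2/3:ℝ) ≤ (8 * n / (3 * D)) * d ^ (2/3:ℝ) := by
    calc r ^ (2/3:ℝ) ≤ ((8 * n / (3 * D)) * (3 * R * D / N)) ^ (2/3:ℝ) := by gcongr
      _ = (8 * n / (3 * D)) ^ (2/3:ℝ) * (3 * R * D / N) ^ (2/3:ℝ) := by
        rw [Real.mul_rpow (by positivity) (by positivity)]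
      _ ≤ (8 * n / (3 * D)) ^ (1:ℝ) * d ^ (2/3:ℝ) := by
        apply mul_le_mul
        · exact Real.rpow_le_rpow_of_exponent_le h3 (by norm_num)
        · exact Real.rpow_le_rpow (by positivity) hd (by norm_num)
        · positivity
        · positivity
      _ = (8 * n / (3 * D)) * d ^ (2/3:ℝ) := by rw [Real.rpow_one]
  have hd0 : 0 ≤ d := le_trans (by positivity) hd
  calc 2 * D * r ^ (2/3:ℝ) ≤ 2 * D * ((8 * n / (3 * D)) * d ^ (2/3:ℝ)) := by gcongr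
    _ = 16 / 3 * n * d ^ (2/3:ℝ) := by field_simp; ring
    _ ≤ 6 * n * d ^ (2/3:ℝ) := by
      have : 0 ≤ n * d ^ (2/3:ℝ) := by positivity
      nlinarith

/-- the choice of the scale -/
lemma scale (r : ℝ) (hr : 0 < r) (hr1 : r ≤ 1) (k : ℕ) : ∃ (N : ℕ) (Z : Finset ℕ) (R n : ℕ),
    k + 1 ≤ N ∧ 2 ≤ N ∧ (∀ z ∈ Z, G N z) ∧ 1 ≤ Z.card ∧ 1 ≤ R ∧
    R = 28 * N.sqrt * (2 ^ (6 * N.primeFactors.card) + 1) ∧
    2 ≤ n ∧ (n:ℝ) * (4 * R) ≤ r * N ∧ r ≤ 8 * R * n / N ∧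
    (1:ℝ) ≤ n * n * Z.card * (1 / (4 * (N:ℝ) ^ 2)) ^ (2/3:ℝ) ∧
    (1:ℝ) ≤ n * n * (1 / (N:ℝ)) ^ (2/3:ℝ) := by
  obtain ⟨C, hC⟩ := ex_const 144
  have hC1 : 1 ≤ C := by
    have := hC 1 (by norm_num)
    simp only [Nat.primeFactors_one, Finset.card_empty, mul_zero, pow_zero, mul_one] at this
    exact this
  have hC1' : (1:ℝ) ≤ C := by exact_mod_cast hC1
  set A : ℝ := 56 * C with hA
  have hA1 : 1 ≤ A := by rw [hA]; linarith
  set L0 : ℝ := 12800 * A ^ 2 / r ^ 2 with hL0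
  have hL01 : 12800 ≤ L0 := by
    rw [hL0, le_div_iff₀ (by positivity)]
    nlinarith [pow_pos hr 2, pow_le_one₀ (n := 2) hr.le hr1, one_le_pow₀ (n := 2) hA1]
  obtain ⟨N, hN, Z, hZ, hZc⟩ := exists_many (⌈L0 ^ 24⌉₊ + k + 2)
  have hN1 : k + 1 ≤ N := by omega
  have hN2 : 2 ≤ N := by omega
  have hNpos : (0:ℝ) < N := by exact_mod_cast (by omega : 0 < N)
  set L : ℝ := (N:ℝ) ^ (1/24:ℝ) with hL
  have hLpos : 0 < L := by rw [hL]; positivity
  have hL24 : L ^ 24 = N := by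
    rw [hL, ← Real.rpow_natCast, ← Real.rpow_mul hNpos.le]
    norm_num
  have hLL0 : L0 ≤ L := by
    have h1 : L0 ^ 24 ≤ L ^ 24 := by
      rw [hL24]
      calc L0 ^ 24 ≤ (⌈L0 ^ 24⌉₊ : ℝ) := Nat.le_ceil _
        _ ≤ N := by exact_mod_cast (by omega : ⌈L0 ^ 24⌉₊ ≤ N)
    exact (pow_le_pow_iff_left₀ (by linarith) hLpos.le (by norm_num)).1 h1
  have hL1 : 1 ≤ L := by linarith
  have hs1 : 0 < N.sqrt := Nat.sqrt_pos.2 (by omega)
  have hsL : (N.sqrt : ℝ) ≤ L ^ 12 := by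
    have h1 : (N.sqrt : ℝ) ^ 2 ≤ (L ^ 12) ^ 2 := by
      rw [← pow_mul, hL24]
      exact_mod_cast Nat.sqrt_le' N
    exact (pow_le_pow_iff_left₀ (by positivity) (by positivity) (by norm_num)).1 h1
  have hHL : ((2 ^ (6 * N.primeFactors.card) : ℕ) : ℝ) ≤ C * L := by
    have h1 : ((2 ^ (6 * N.primeFactors.card) : ℕ) : ℝ) ^ 24 ≤ (C * L) ^ 24 := by
      have h2 : ((2 ^ (6 * N.primeFactors.card) : ℕ)) ^ 24 = 2 ^ (144 * N.primeFactors.card) := by
        rw [← pow_mul]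
        congr 1
        ring
      have h3 := hC N (by omega)
      rw [← h2] at h3
      calc ((2 ^ (6 * N.primeFactors.card) : ℕ) : ℝ) ^ 24 ≤ C * N := by exact_mod_cast h3
        _ ≤ (C:ℝ) ^ 24 * N := by
          gcongr
          exact le_self_pow₀ hC1' (by norm_num)
        _ = (C * L) ^ 24 := by rw [mul_pow, hL24]
    exact (pow_le_pow_iff_left₀ (by positivity) (by positivity) (by norm_num)).1 h1
  set R : ℕ := 28 * N.sqrt * (2 ^ (6 * N.primeFactors.card) + 1) with hR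
  have hR1 : 1 ≤ R := by
    rw [hR]
    have h1 : 0 < 28 * N.sqrt * (2 ^ (6 * N.primeFactors.card) + 1) := by positivity
    omega
  have hR1' : (1:ℝ) ≤ R := by exact_mod_cast hR1
  have hRA : (R:ℝ) ≤ A * L ^ 13 := by
    have h0 : (1:ℝ) ≤ ((2 ^ (6 * N.primeFactors.card) : ℕ) : ℝ) := by
      exact_mod_cast Nat.one_le_two_pow
    have h1 : (((2 ^ (6 * N.primeFactors.card) : ℕ) : ℝ) + 1) ≤ 2 * (C * L) := by linarith
    have e : (R:ℝ) = 28 * N.sqrt * (((2 ^ (6 * N.primeFactors.card) : ℕ) : ℝ) + 1) := by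
      rw [hR]; push_cast; ring
    rw [e]
    calc 28 * (N.sqrt : ℝ) * (((2 ^ (6 * N.primeFactors.card) : ℕ) : ℝ) + 1)
        ≤ 28 * L ^ 12 * (2 * (C * L)) := by gcongr
      _ = A * L ^ 13 := by rw [hA]; ring
  have hRpos : (0:ℝ) < R := by linarith
  -- `L ≥ 12800 A² / r²`
  have hLr : 12800 * A ^ 2 ≤ L * r ^ 2 := by
    have := hLL0
    rw [hL0, div_le_iff₀ (by positivity)] at this
    exact this
  have hr2 : r ^ 2 ≤ r := by nlinarith
  have hA2 : A ≤ A ^ 2 := by nlinarith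
  set t : ℝ := r * N / (4 * R) with ht
  have ht2 : 2 ≤ t := by
    rw [ht, le_div_iff₀ (by positivity)]
    have h1 : 8 * A ≤ L * r := by nlinarith
    calc 2 * (4 * (R:ℝ)) ≤ 2 * (4 * (A * L ^ 13)) := by gcongr
      _ = (8 * A) * L ^ 13 := by ring
      _ ≤ (L * r) * L ^ 13 := by gcongr
      _ = r * L ^ 14 := by ring
      _ ≤ r * L ^ 24 := by
        gcongr
        · norm_num
      _ = r * N := by rw [hL24]
  set n : ℕ := ⌊t⌋₊ with hn
  have hn2 : 2 ≤ n := Nat.le_floor (by exact_mod_cast ht2)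
  have hnt : (n:ℝ) ≤ t := Nat.floor_le (by linarith)
  have hnt' : t < n + 1 := Nat.lt_floor_add_one t
  have hn2' : (2:ℝ) ≤ n := by exact_mod_cast hn2
  have hn_half : t / 2 ≤ n := by linarith
  -- lower bound for `n`
  have hnL : r * L ^ 11 / (8 * A) ≤ n := by
    refine le_trans ?_ hn_half
    rw [ht, div_div, div_le_div_iff₀ (by positivity) (by positivity)]
    calc r * L ^ 11 * (4 * R * 2) ≤ r * L ^ 11 * (4 * (A * L ^ 13) * 2) := by gcongr
      _ = r * L ^ 24 * (8 * A) := by ring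
      _ = r * N * (8 * A) := by rw [hL24]
  have hnn : r ^ 2 * L ^ 22 / (64 * A ^ 2) ≤ (n:ℝ) * n := by
    calc r ^ 2 * L ^ 22 / (64 * A ^ 2) = (r * L ^ 11 / (8 * A)) * (r * L ^ 11 / (8 * A)) := by
          field_simp
          ring
      _ ≤ (n:ℝ) * n := mul_le_mul hnL hnL (by positivity) (by positivity)
  have hsqrt : Real.sqrt N = L ^ 12 := by
    rw [← hL24, show L ^ 24 = (L ^ 12) ^ 2 by ring, Real.sqrt_sq (by positivity)]
  rw [hsqrt] at hZc
  have hZ1 : 1 ≤ Z.card := by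
    by_contra hcon
    have h0 : Z.card = 0 := by omega
    rw [h0] at hZc
    have : 0 < L ^ 12 := by positivity
    simp at hZc
    linarith
  have hL16 : (1 / (N:ℝ)) ^ (2/3:ℝ) = 1 / L ^ 16 := by
    rw [Real.div_rpow (by norm_num) hNpos.le, Real.one_rpow, ← hL24, ← Real.rpow_natCast L 24,
      ← Real.rpow_mul hLpos.le, ← Real.rpow_natCast L 16]
    norm_num
  have hL32 : 1 / (4 * L ^ 32) ≤ (1 / (4 * (N:ℝ) ^ 2)) ^ (2/3:ℝ) := by
    have e1 : (N:ℝ) ^ 2 = L ^ 48 := by rw [← hL24]; ring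
    rw [e1, Real.div_rpow (by norm_num) (by positivity), Real.one_rpow,
      Real.mul_rpow (by norm_num) (by positivity)]
    have e2 : (L ^ 48) ^ (2/3:ℝ) = L ^ 32 := by
      rw [← Real.rpow_natCast L 48, ← Real.rpow_mul hLpos.le, ← Real.rpow_natCast L 32]
      norm_num
    have e3 : (4:ℝ) ^ (2/3:ℝ) ≤ 4 := by
      calc (4:ℝ) ^ (2/3:ℝ) ≤ 4 ^ (1:ℝ) :=
            Real.rpow_le_rpow_of_exponent_le (by norm_num) (by norm_num)
        _ = 4 := Real.rpow_one _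
    rw [e2]
    gcongr
  refine ⟨N, Z, R, n, hN1, hN2, hZ, hZ1, hR1, rfl, hn2, ?_, ?_, ?_, ?_⟩
  · rw [ht, le_div_iff₀ (by positivity)] at hnt
    exact hnt
  · rw [le_div_iff₀ hNpos]
    have h1 : t ≤ 2 * n := by linarith
    rw [ht, div_le_iff₀ (by positivity)] at h1
    linarith
  · have h1 : r ^ 2 * L ^ 22 / (64 * A ^ 2) * (L ^ 12 / 50) ≤ (n:ℝ) * n * Z.card := by
      apply mul_le_mul hnn _ (by positivity) (by positivity)
      linarith
    calc (1:ℝ) ≤ r ^ 2 * L ^ 2 / (12800 * A ^ 2) := by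
          rw [one_le_div (by positivity)]
          nlinarith [mul_le_mul_of_nonneg_left hL1 (by positivity : 0 ≤ L * r ^ 2)]
      _ = r ^ 2 * L ^ 22 / (64 * A ^ 2) * (L ^ 12 / 50) * (1 / (4 * L ^ 32)) := by
          field_simp
          ring
      _ ≤ n * n * Z.card * (1 / (4 * (N:ℝ) ^ 2)) ^ (2/3:ℝ) := by
          gcongr
  · rw [hL16]
    calc (1:ℝ) ≤ r ^ 2 * L ^ 6 / (64 * A ^ 2) := by
          rw [one_le_div (by positivity)]
          have h2 : L ≤ L ^ 6 := le_self_pow₀ hL1 (by norm_num)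
          have h3 : L * r ^ 2 ≤ L ^ 6 * r ^ 2 := by gcongr
          have h4 : 0 ≤ A ^ 2 := by positivity
          linarith
      _ = r ^ 2 * L ^ 22 / (64 * A ^ 2) * (1 / L ^ 16) := by
          field_simp
      _ ≤ n * n * (1 / L ^ 16) := by gcongr

/-- separation of boxes -/
lemma box_sep (R : ℕ) (X0 a a' : ℤ) (i i' : ℕ) (hne : i ≠ i')
    (h1 : X0 + 4 * R * i ≤ a) (h2 : a ≤ X0 + 4 * R * i + R)
    (h3 : X0 + 4 * R * i' ≤ a') (h4 : a' ≤ X0 + 4 * R * i' + R) :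
    3 * (R:ℝ) * |(i:ℝ) - i'| ≤ |(a:ℝ) - a'| := by
  have hR : (0:ℝ) ≤ R := by positivity
  have h1' : (X0:ℝ) + 4 * R * i ≤ a := by exact_mod_cast h1
  have h2' : (a:ℝ) ≤ X0 + 4 * R * i + R := by exact_mod_cast h2
  have h3' : (X0:ℝ) + 4 * R * i' ≤ a' := by exact_mod_cast h3
  have h4' : (a':ℝ) ≤ X0 + 4 * R * i' + R := by exact_mod_cast h4
  rcases lt_or_gt_of_ne hne with h | h
  · have h5 : (i:ℝ) + 1 ≤ i' := by exact_mod_cast h
    rw [abs_of_neg (by linarith : (i:ℝ) - i' < 0)]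
    refine le_trans ?_ (neg_le_abs _)
    nlinarith
  · have h5 : (i':ℝ) + 1 ≤ i := by exact_mod_cast h
    rw [abs_of_pos (by linarith : (0:ℝ) < (i:ℝ) - i')]
    refine le_trans ?_ (le_abs_self _)
    nlinarith

/-- small inequalities, kept outside of the main proof -/
lemma aux1 (N : ℝ) (hN : 2 ≤ N) : 4 * (1 / (4 * N ^ 2)) ≤ 1 / N := by
  rw [← mul_div_assoc, div_le_div_iff₀ (by positivity) (by linarith)]
  nlinarith

lemma aux2 (m n t : ℝ) (hm : 0 ≤ m) (hn : 1 ≤ n) (ht : 0 ≤ t) :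
    m * (n * n * t) ≤ 6 * (n * n * m) * t := by
  have : 0 ≤ m * (n * n * t) := by positivity
  nlinarith

lemma aux3 (m n t : ℝ) (hm : 0 ≤ m) (hn : 1 ≤ n) (ht : 0 ≤ t) :
    m * (6 * n * t) ≤ 6 * (n * n * m) * t := by
  have h1 : 0 ≤ m * n * t := by positivity
  have h2 : m * n * t ≤ (m * n * t) * n := le_mul_of_one_le_right h1 hn
  nlinarith

lemma aux4 (R D : ℝ) (hR : 1 ≤ R) (hD : 1 ≤ D) : 1 ≤ 3 * R * D := by nlinarith

lemma coord (N R n r c τ : ℝ) (i : ℝ) (C0 e : ℝ) (hN : 2 ≤ N) (hR : 1 ≤ R)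
    (hi0 : 0 ≤ i) (hi : i + 1 ≤ n) (hnR : n * (4 * R) ≤ r * N) (hτ : 4 * τ ≤ 1 / N)
    (hτ0 : 0 < τ)
    (h1 : N * (c - r) + 1 ≤ C0) (h2 : C0 ≤ N * (c - r) + 2)
    (g4 : C0 + 4 * R * i ≤ e) (g5 : e ≤ C0 + 4 * R * i + R) : |e / N - c| ≤ r - τ := by
  have hNpos : 0 < N := by linarith
  have g7 : 0 ≤ R * i := by positivity
  have g8 : 4 * R * i + 4 * R ≤ r * N := by nlinarith
  have g9 : N * (c - r) + 1 ≤ e := by linarith
  have g10 : e ≤ N * c - 1 := by nlinarith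
  have t1 : c - r + 1 / N ≤ e / N := by
    rw [le_div_iff₀ hNpos]
    have : (c - r + 1 / N) * N = N * (c - r) + 1 := by field_simp
    linarith
  have t2 : e / N ≤ c - 1 / N := by
    rw [div_le_iff₀ hNpos]
    have : (c - 1 / N) * N = N * c - 1 := by field_simp
    linarith
  rw [abs_le]
  constructor <;> linarith

lemma abs_diff_le_n (n i i' : ℕ) (h : i < n) (h' : i' < n) : |(i:ℝ) - i'| ≤ n := by
  have e1 : (i:ℝ) < n := by exact_mod_cast h
  have e2 : (i':ℝ) < n := by exact_mod_cast h'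
  have e3 : (0:ℝ) ≤ i := by positivity
  have e4 : (0:ℝ) ≤ i' := by positivity
  rw [abs_le]
  constructor <;> linarith

lemma one_le_abs_diff (i i' : ℕ) (h : i ≠ i') : 1 ≤ |(i:ℝ) - i'| := by
  have : (1:ℤ) ≤ |(i:ℤ) - i'| := Int.one_le_abs (by omega)
  exact_mod_cast this

lemma same_box {N z z' : ℕ} (h : G N z) (h' : G N z') (hz : z ≠ z') (a b a' b' : ℤ)
    (ha : IsCoprime a (N : ℤ)) (h6 : (N : ℤ) ∣ b - a * z) (h6' : (N : ℤ) ∣ b' - a' * z')
    (d : ℝ) (hd1 : |(a:ℝ) - a'| / N ≤ d) (hd2 : |(b:ℝ) - b'| / N ≤ d) : 1 / (N:ℝ) ≤ d := by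
  by_cases hA : a = a'
  · have hB : b ≠ b' := by
      intro hB
      rw [← hA, ← hB] at h6'
      have h7 : (N:ℤ) ∣ a * ((z : ℤ) - z') := by
        have := dvd_sub h6' h6
        have e : (b - a * z') - (b - a * z) = a * ((z : ℤ) - z') := by ring
        rwa [e] at this
      have h8 : (N:ℤ) ∣ (z : ℤ) - z' := ha.symm.dvd_of_dvd_mul_left h7
      have h9 := h.lt
      have h10 := h'.lt
      have h11 : (z : ℤ) - z' = 0 := by
        apply Int.eq_zero_of_abs_lt_dvd h8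
        rw [abs_lt]
        constructor <;> omega
      apply hz
      omega
    refine le_trans ?_ hd2
    gcongr
    have : (1:ℤ) ≤ |b - b'| := Int.one_le_abs (sub_ne_zero.2 hB)
    exact_mod_cast this
  · refine le_trans ?_ hd1
    gcongr
    have : (1:ℤ) ≤ |a - a'| := Int.one_le_abs (sub_ne_zero.2 hA)
    exact_mod_cast this

lemma idx_same (P m i1 i2 j j' I I' : ℕ) (hj : j < m) (hj' : j' < m)
    (q1 : I = i1 * P + (i2 * m + j)) (q2 : I' = i1 * P + (i2 * m + j')) :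
    |(I:ℝ) - I'| ≤ m := by
  have h7 : |(I:ℤ) - I'| ≤ m := by
    have e1 : (I:ℤ) - I' = (j:ℤ) - j' := by
      rw [q1, q2]
      push_cast
      ring
    rw [e1, abs_le]
    constructor <;> omega
  exact_mod_cast h7

lemma idx_col (P m i1 i2 i2' j j' I I' : ℕ) (hj : j < m) (hj' : j' < m) (c2 : i2 ≠ i2')
    (q1 : I = i1 * P + (i2 * m + j)) (q2 : I' = i1 * P + (i2' * m + j')) :
    |(I:ℝ) - I'| ≤ 2 * |(i2:ℝ) - i2'| * m := by
  have h7 := idx_diff m i2 j i2' j' hj hj' c2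
  have e1 : (I:ℝ) - I' = ((i2 * m + j : ℕ) : ℝ) - ((i2' * m + j' : ℕ) : ℝ) := by
    rw [q1, q2]
    push_cast
    ring
  rw [e1]
  exact h7

theorem data : Tree.Data (2/3 : ℝ) 6 (Metric.ball ((0, 0) : ℝ × ℝ) 1) W := by
  classical
  intro k x r hr hsub
  have hr1 : r ≤ 1 := by
    have h1 : ((x.1 + r, x.2) : ℝ × ℝ) ∈ Metric.ball ((0, 0) : ℝ × ℝ) 1 := by
      apply hsub
      rw [Metric.mem_closedBall, Prod.dist_eq, Real.dist_eq, Real.dist_eq]
      simp [abs_of_pos hr, hr.le]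
    have h2 : ((x.1 - r, x.2) : ℝ × ℝ) ∈ Metric.ball ((0, 0) : ℝ × ℝ) 1 := by
      apply hsub
      rw [Metric.mem_closedBall, Prod.dist_eq, Real.dist_eq, Real.dist_eq]
      simp [abs_of_pos hr, hr.le]
    rw [Metric.mem_ball, Prod.dist_eq, max_lt_iff, Real.dist_eq, Real.dist_eq, abs_lt] at h1 h2
    have := h1.1.2
    have := h2.1.1
    simp only [sub_zero] at *
    linarith
  obtain ⟨N, Z, R, n, hkN, hN2, hZ, hZ1, hR1, hRdef, hn2, hnR, hrn, hMτ, hnn⟩ :=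
    scale r hr hr1 k
  set m := Z.card with hm
  have hNpos : (0:ℝ) < N := by exact_mod_cast (by omega : 0 < N)
  have hN2' : (2:ℝ) ≤ N := by exact_mod_cast hN2
  have hR1' : (1:ℝ) ≤ R := by exact_mod_cast hR1
  have hn2' : (2:ℝ) ≤ n := by exact_mod_cast hn2
  have hm1' : (1:ℝ) ≤ m := by exact_mod_cast hZ1
  -- enumeration
  set zz : ℕ → ℕ := fun j => if h : j < m then Z.orderEmbOfFin rfl ⟨j, h⟩ else 0 with hzz
  have hzZ : ∀ j, j < m → zz j ∈ Z := by
    intro j hj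
    rw [hzz]
    simp only [dif_pos hj]
    exact Finset.orderEmbOfFin_mem Z rfl _
  have hzinj : ∀ j j', j < m → j' < m → zz j = zz j' → j = j' := by
    intro j j' hj hj' h
    rw [hzz] at h
    simp only [dif_pos hj, dif_pos hj'] at h
    have := (Z.orderEmbOfFin rfl).injective h
    simpa using this
  -- the points
  set X0 : ℤ := ⌈(N:ℝ) * (x.1 - r)⌉ + 1 with hX0
  set Y0 : ℤ := ⌈(N:ℝ) * (x.2 - r)⌉ + 1 with hY0
  have hpts : ∀ i1 i2 j : ℕ, ∃ a b : ℤ, j < m →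
      X0 + 4 * R * i1 ≤ a ∧ a ≤ X0 + 4 * R * i1 + R ∧
      Y0 + 4 * R * i2 ≤ b ∧ b ≤ Y0 + 4 * R * i2 + R ∧
      IsCoprime a (N : ℤ) ∧ (N : ℤ) ∣ b - a * zz j := by
    intro i1 i2 j
    by_cases hj : j < m
    · obtain ⟨a, b, h1, h2, h3, h4, h5, h6⟩ := box N (zz j) (hZ _ (hzZ j hj))
        (X0 + 4 * R * i1) (Y0 + 4 * R * i2)
      have e : (R : ℤ) = 28 * N.sqrt * (2 ^ (6 * N.primeFactors.card) + 1) := by
        rw [hRdef]; push_cast; ring
      rw [← e] at h2 h4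
      exact ⟨a, b, fun _ => ⟨h1, h2, h3, h4, h5, h6⟩⟩
    · exact ⟨0, 0, fun h => absurd h hj⟩
  choose a b hab using hpts
  set P := n * m with hP
  have hPpos : 0 < P := Nat.mul_pos (by omega) (by omega)
  set τ : ℝ := 1 / (4 * (N:ℝ) ^ 2) with hτ
  have hτpos : 0 < τ := by rw [hτ]; positivity
  have hτN : 4 * τ ≤ 1 / N := aux1 N hN2'
  set y : ℕ → ℝ × ℝ := fun I => ((a (I / P) ((I % P) / m) ((I % P) % m) : ℝ) / N,
    (b (I / P) ((I % P) / m) ((I % P) % m) : ℝ) / N) with hy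
  have hrle : r ^ (2/3:ℝ) ≤ 1 := Real.rpow_le_one hr.le hr1 (by norm_num)
  have hrpow : 0 ≤ r ^ (2/3:ℝ) := by positivity
  have hM : ((n * P : ℕ) : ℝ) = n * n * m := by rw [hP]; push_cast; ring
  refine ⟨n * P, τ, y, ?_, hτpos, ?_, ?_, ?_⟩
  · calc 2 ≤ n * 1 := by omega
      _ ≤ n * P := Nat.mul_le_mul_left n hPpos
  · rw [hM]
    linarith
  · -- the balls
    intro I hI
    have hi1 : I / P < n := Nat.div_lt_of_lt_mul (by rwa [mul_comm])
    have hIP : I % P < P := Nat.mod_lt _ hPpos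
    have hi2 : (I % P) / m < n := Nat.div_lt_of_lt_mul (by rw [mul_comm]; exact hIP)
    have hj : (I % P) % m < m := Nat.mod_lt _ (by omega)
    set i1 := I / P
    set i2 := (I % P) / m
    set j := (I % P) % m
    obtain ⟨h1, h2, h3, h4, h5, h6⟩ := hab i1 i2 j hj
    apply Set.subset_inter
    · exact ball_subset_W (hZ _ (hzZ j hj)) _ _ h5 h6 k hkN
    · apply Metric.closedBall_subset_closedBall'
      have hc : ∀ c : ℝ, (N:ℝ) * (c - r) + 1 ≤ ((⌈(N:ℝ) * (c - r)⌉ + 1 : ℤ) : ℝ) ∧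
          ((⌈(N:ℝ) * (c - r)⌉ + 1 : ℤ) : ℝ) ≤ (N:ℝ) * (c - r) + 2 := by
        intro c
        have g1 : (N:ℝ) * (c - r) ≤ ⌈(N:ℝ) * (c - r)⌉ := Int.le_ceil _
        have g2 : (⌈(N:ℝ) * (c - r)⌉ : ℝ) < N * (c - r) + 1 := Int.ceil_lt_add_one _
        push_cast
        constructor <;> linarith
      rw [Prod.dist_eq, Real.dist_eq, Real.dist_eq]
      have c1 := coord N R n r x.1 τ i1 X0 (a i1 i2 j) hN2' hR1' (Nat.cast_nonneg _)
        (by exact_mod_cast hi1) hnR hτN hτpos (hc x.1).1 (hc x.1).2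
        (by exact_mod_cast h1) (by exact_mod_cast h2)
      have c2 := coord N R n r x.2 τ i2 Y0 (b i1 i2 j) hN2' hR1' (Nat.cast_nonneg _)
        (by exact_mod_cast hi2) hnR hτN hτpos (hc x.2).1 (hc x.2).2
        (by exact_mod_cast h3) (by exact_mod_cast h4)
      have : max |(a i1 i2 j : ℝ) / N - x.1| |(b i1 i2 j : ℝ) / N - x.2| ≤ r - τ := max_le c1 c2
      change τ + max |(a i1 i2 j : ℝ) / N - x.1| |(b i1 i2 j : ℝ) / N - x.2| ≤ r
      linarith
  · -- separation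
    intro I I' hI hI' hne
    have hi1 : I / P < n := Nat.div_lt_of_lt_mul (by rwa [mul_comm])
    have hi1' : I' / P < n := Nat.div_lt_of_lt_mul (by rwa [mul_comm])
    have hIP : I % P < P := Nat.mod_lt _ hPpos
    have hIP' : I' % P < P := Nat.mod_lt _ hPpos
    have hi2 : (I % P) / m < n := Nat.div_lt_of_lt_mul (by rw [mul_comm]; exact hIP)
    have hi2' : (I' % P) / m < n := Nat.div_lt_of_lt_mul (by rw [mul_comm]; exact hIP')
    have hj : (I % P) % m < m := Nat.mod_lt _ (by omega)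
    have hj' : (I' % P) % m < m := Nat.mod_lt _ (by omega)
    have eI : I / P * P + I % P = I := Nat.div_add_mod' I P
    have eI' : I' / P * P + I' % P = I' := Nat.div_add_mod' I' P
    have eJ : (I % P) / m * m + (I % P) % m = I % P := Nat.div_add_mod' _ m
    have eJ' : (I' % P) / m * m + (I' % P) % m = I' % P := Nat.div_add_mod' _ m
    obtain ⟨h1, h2, h3, h4, h5, h6⟩ := hab (I / P) ((I % P) / m) ((I % P) % m) hj
    obtain ⟨h1', h2', h3', h4', h5', h6'⟩ := hab (I' / P) ((I' % P) / m) ((I' % P) % m) hj'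
    set i1 := I / P
    set i2 := (I % P) / m
    set j := (I % P) % m
    set i1' := I' / P
    set i2' := (I' % P) / m
    set j' := (I' % P) % m
    have hd1 : |(a i1 i2 j : ℝ) - a i1' i2' j'| / N ≤ dist (y I) (y I') := by
      rw [Prod.dist_eq]
      refine le_trans (le_of_eq ?_) (le_max_left _ _)
      rw [Real.dist_eq]
      change _ = |(a i1 i2 j : ℝ) / N - (a i1' i2' j' : ℝ) / N|
      rw [← sub_div, abs_div, abs_of_pos hNpos]
    have hd2 : |(b i1 i2 j : ℝ) - b i1' i2' j'| / N ≤ dist (y I) (y I') := by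
      rw [Prod.dist_eq]
      refine le_trans (le_of_eq ?_) (le_max_right _ _)
      rw [Real.dist_eq]
      change _ = |(b i1 i2 j : ℝ) / N - (b i1' i2' j' : ℝ) / N|
      rw [← sub_div, abs_div, abs_of_pos hNpos]
    set d := dist (y I) (y I') with hd
    have hd0 : 0 ≤ d := dist_nonneg
    have hdpow : 0 ≤ d ^ (2/3:ℝ) := by positivity
    rw [hM]
    by_cases c1 : i1 = i1'
    · have q1 : I = i1 * P + (i2 * m + j) := by rw [eJ, eI]
      have q2 : I' = i1 * P + (i2' * m + j') := by rw [c1, eJ', eI']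
      by_cases c2 : i2 = i2'
      · -- the same box
        have c3 : j ≠ j' := by
          intro h
          apply hne
          rw [q1, q2, c2, h]
        have hz : zz j ≠ zz j' := fun h => c3 (hzinj _ _ hj hj' h)
        have hdN : 1 / (N:ℝ) ≤ d := same_box (hZ _ (hzZ j hj)) (hZ _ (hzZ j' hj')) hz _ _ _ _
          h5 h6 h6' d hd1 hd2
        refine ⟨hτN.trans hdN, ?_⟩
        have hIJ : |(I:ℝ) - I'| ≤ m := idx_same P m i1 i2 j j' I I' hj hj' q1 (by rw [c2]; exact q2)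
        have h8 : (1:ℝ) ≤ n * n * d ^ (2/3:ℝ) := by
          refine hnn.trans ?_
          gcongr
        calc |(I:ℝ) - I'| * r ^ (2/3:ℝ) ≤ m * 1 := mul_le_mul hIJ hrle hrpow (Nat.cast_nonneg _)
          _ ≤ m * (n * n * d ^ (2/3:ℝ)) := mul_le_mul_of_nonneg_left h8 (Nat.cast_nonneg _)
          _ ≤ 6 * (n * n * m) * d ^ (2/3:ℝ) := aux2 _ _ _ (Nat.cast_nonneg _) (by linarith) hdpow
      · -- the same column
        have hs := box_sep R Y0 _ _ i2 i2' c2 h3 h4 h3' h4'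
        have hD1 := one_le_abs_diff i2 i2' c2
        have hDn := abs_diff_le_n n i2 i2' hi2 hi2'
        have hdd : 3 * (R:ℝ) * |(i2:ℝ) - i2'| / N ≤ d :=
          le_trans (div_le_div_of_nonneg_right hs hNpos.le) hd2
        have hkey := key_ineq r R N n _ d hr (by linarith) hNpos hrn hD1 hDn hdd
        refine ⟨?_, ?_⟩
        · exact hτN.trans (le_trans (div_le_div_of_nonneg_right (aux4 _ _ hR1' hD1) hNpos.le) hdd)
        · have hIJ := idx_col P m i1 i2 i2' j j' I I' hj hj' c2 q1 q2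
          calc |(I:ℝ) - I'| * r ^ (2/3:ℝ) ≤ (2 * |(i2:ℝ) - i2'| * m) * r ^ (2/3:ℝ) :=
                mul_le_mul_of_nonneg_right hIJ hrpow
            _ = m * (2 * |(i2:ℝ) - i2'| * r ^ (2/3:ℝ)) := by ring
            _ ≤ m * (6 * n * d ^ (2/3:ℝ)) := mul_le_mul_of_nonneg_left hkey (Nat.cast_nonneg _)
            _ ≤ 6 * (n * n * m) * d ^ (2/3:ℝ) := aux3 _ _ _ (Nat.cast_nonneg _) (by linarith) hdpow
    · -- different columns
      have hs := box_sep R X0 _ _ i1 i1' c1 h1 h2 h1' h2'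
      have hD1 := one_le_abs_diff i1 i1' c1
      have hDn := abs_diff_le_n n i1 i1' hi1 hi1'
      have hdd : 3 * (R:ℝ) * |(i1:ℝ) - i1'| / N ≤ d :=
        le_trans (div_le_div_of_nonneg_right hs hNpos.le) hd1
      have hkey := key_ineq r R N n _ d hr (by linarith) hNpos hrn hD1 hDn hdd
      refine ⟨?_, ?_⟩
      · exact hτN.trans (le_trans (div_le_div_of_nonneg_right (aux4 _ _ hR1' hD1) hNpos.le) hdd)
      · have hIJ : |(I:ℝ) - I'| ≤ 2 * |(i1:ℝ) - i1'| * P := by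
          have h7 := idx_diff P i1 (I % P) i1' (I' % P) hIP hIP' c1
          rw [eI, eI'] at h7
          exact h7
        have hP' : (P:ℝ) = n * m := by rw [hP]; push_cast; ring
        calc |(I:ℝ) - I'| * r ^ (2/3:ℝ) ≤ (2 * |(i1:ℝ) - i1'| * P) * r ^ (2/3:ℝ) :=
              mul_le_mul_of_nonneg_right hIJ hrpow
          _ = (n * m) * (2 * |(i1:ℝ) - i1'| * r ^ (2/3:ℝ)) := by rw [hP']; ring
          _ ≤ (n * m) * (6 * n * d ^ (2/3:ℝ)) := mul_le_mul_of_nonneg_left hkey (mul_nonneg (Nat.cast_nonneg _) (Nat.cast_nonneg _))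
          _ = 6 * (n * n * m) * d ^ (2/3:ℝ) := by ring

end Q271.UL
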